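import Pool.Agent.helper20.BDC.Lim

/-!
# Large points can be reduced: uniform bounds for varying data, with a constant
-/

noncomputable section

namespace Pool.Agent.helper20.BDA

open Finset Filter Topology
open Pool.Agent.helper22.ACC (od Sm Ri od_nonneg od_mono od_bdd od_add sm_wqo closure_nonneg)
open Pool.Agent.helper20.BDC

variable {d : ℕ}

/-- the log discrepancy in coordinates -/
def GC (C : ℝ) (b : Fin d → ℝ) (I : List (ℝ × Set (Fin d → ℕ))) (u : Fin d → ℝ) : ℝ :=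
  ∑ i, u i * (C - b i) - (I.map fun a => a.1 * od a.2 u).sum

theorem GC_filter (C : ℝ) (b : Fin d → ℝ) (I : List (ℝ × Set (Fin d → ℕ))) (hI : ∀ a ∈ I, 0 ≤ a.1) :
    ∃ I' : List (ℝ × Set (Fin d → ℕ)), (∀ a ∈ I', a ∈ I ∧ Rel a) ∧
      ∀ u : Fin d → ℝ, (∀ i, 0 < u i) → GC C b I u = GC C b I' u := by
  classical
  refine ⟨I.filter (fun a => decide (Rel a)), ?_, ?_⟩
  · intro a ha
    rw [List.mem_filter, decide_eq_true_eq] at ha
    exact ha
  · intro u hu
    simp only [GC]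
    congr 1
    induction I with
    | nil => simp
    | cons a I ih =>
      have ih' := ih fun x hx => hI x (List.mem_cons_of_mem _ hx)
      by_cases h : Rel a
      · rw [List.filter_cons_of_pos (by simpa using h), List.map_cons, List.map_cons,
          List.sum_cons, List.sum_cons, ih']
      · rw [List.filter_cons_of_neg (by simpa using h), List.map_cons, List.sum_cons, ih']
        have h0 : a.1 * od a.2 u = 0 := by
          rw [BDC.Rel, not_and_or, not_lt, not_not] at h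
          rcases h with h | h
          · rw [le_antisymm h (hI a List.mem_cons_self), zero_mul]
          · rw [od_zero h hu, mul_zero]
        rw [h0, zero_add]

theorem GC_ofFn {K : ℕ} (C : ℕ) (b : Fin d → ℝ) (f : Fin K → ℝ × Set (Fin d → ℕ)) (u : Fin d → ℝ) :
    GC (C : ℝ) b (List.ofFn f) u =
      FE (C : ℝ) b (fun j => (f j).1) (fun j => (f j).2) u := by
  simp only [GC, FE, List.map_ofFn, List.sum_ofFn, Function.comp_apply]

/-! ## bounds -/

theorem sum_C_sub_le (C : ℝ) {b : Fin d → ℝ} (hb : ∀ i, 0 ≤ b i) :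
    ∑ i, (C - b i) ≤ d * C := by
  calc ∑ i, (C - b i) ≤ ∑ _i : Fin d, C :=
        Finset.sum_le_sum fun i _ => by linarith [hb i]
    _ = d * C := by simp

theorem b_le_C {C : ℝ} (hC : 0 ≤ C) {b : Fin d → ℝ} (hb : ∀ i, 0 ≤ b i) {I : List (ℝ × Set (Fin d → ℕ))}
    (hI : ∀ a ∈ I, 0 ≤ a.1) (hG : ∀ u : Fin d → ℝ, (∀ i, 0 < u i) → 0 ≤ GC C b I u) (i : Fin d) :
    b i ≤ C := by
  classical
  by_contra hcon
  push Not at hcon
  obtain ⟨N, hN⟩ := exists_nat_gt ((d * C : ℝ) / (b i - C))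
  have hbi : 0 < b i - C := by linarith
  set u : Fin d → ℝ := fun i' => if i' = i then (N : ℝ) + 1 else 1 with hu
  have hu0 : ∀ i', 0 < u i' := by
    intro i'
    simp only [hu]
    split_ifs <;> positivity
  have h1 := hG u hu0
  have h2 : GC C b I u ≤ ∑ i', u i' * (C - b i') := by
    apply sub_le_self
    apply List.sum_nonneg
    intro x hx
    obtain ⟨a, ha, rfl⟩ := List.mem_map.1 hx
    exact mul_nonneg (hI a ha) (od_nonneg _ hu0)
  have h3 : ∑ i', u i' * (C - b i') ≤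
      ∑ i', ((if i' = i then ((N : ℝ) + 1) * (C - b i) else 0) + C) := by
    refine Finset.sum_le_sum fun i' _ => ?_
    simp only [hu]
    split_ifs with h
    · rw [h]; linarith
    · linarith [hb i']
  rw [Finset.sum_add_distrib, Finset.sum_ite_eq' univ i] at h3
  simp only [Finset.mem_univ, if_true, Finset.sum_const, Finset.card_univ, Fintype.card_fin,
    nsmul_eq_mul, mul_one] at h3
  rw [div_lt_iff₀ hbi] at hN
  nlinarith

/-- **Uniform reduction of large points.** -/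
theorem limC (d C : ℕ) (Γ : Set ℝ) (hΓ : ∀ x ∈ Γ, 0 ≤ x) (hWF : Γ.IsPWO) :
    ∃ R : ℝ, ∀ (b : Fin d → ℝ) (I : List (ℝ × Set (Fin d → ℕ))),
      (∀ i, b i ∈ AddSubmonoid.closure Γ) → (∀ a ∈ I, a.1 ∈ Γ ∧ a.2.Nonempty) →
      (∀ u : Fin d → ℝ, (∀ i, 0 < u i) → 0 ≤ GC (C : ℝ) b I u) →
      ∀ w : Fin d → ℝ, (∀ i, 0 < w i) → R < ∑ i, w i →
      ∃ z : Fin d → ℕ, z ≠ 0 ∧ (∀ i, (z i : ℝ) < w i) ∧
        GC (C : ℝ) b I (fun i => w i - z i) ≤ GC (C : ℝ) b I w := by
  classical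
  by_contra hcon
  push Not at hcon
  choose b I hbΓ hIΓ hG w hw hwk hz using fun k : ℕ => hcon (k : ℝ)
  obtain ⟨ε, hε, hεΓ⟩ := exists_eps hWF
  have hb0 : ∀ k i, 0 ≤ b k i := fun k i => closure_nonneg hΓ (hbΓ k i)
  choose I' hI' hGI using fun k => GC_filter (C : ℝ) (b k) (I k) (fun a ha => hΓ _ (hIΓ k a ha).1)
  have hI'Γ : ∀ k, ∀ a ∈ I' k, Rel a ∧ ε ≤ a.1 ∧ a.2.Nonempty := by
    intro k a ha
    have h1 := hI' k a ha
    have h2 := hIΓ k a h1.1
    exact ⟨h1.2, hεΓ _ h2.1 h1.2.1, h2.2⟩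
  -- bounded lengths
  have hsum : ∀ k, ((I' k).map fun a => a.1 * od a.2 (fun _ => (1 : ℝ))).sum ≤ d * C := by
    intro k
    have h1 := hG k (fun _ => 1) (fun _ => one_pos)
    rw [hGI k _ (fun _ => one_pos)] at h1
    simp only [GC, one_mul] at h1
    have h2 := sum_C_sub_le (C : ℝ) (hb0 k)
    linarith
  have hlen : ∀ k, (I' k).length < ⌊(d * C : ℝ) / ε⌋₊ + 1 := by
    intro k
    have h1 := (length_le hε (hI'Γ k)).trans (hsum k)
    rw [← le_div_iff₀ hε] at h1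
    exact Nat.lt_succ_of_le (Nat.le_floor h1)
  obtain ⟨K, hK⟩ := Finite.exists_infinite_fiber
    (fun k => (⟨(I' k).length, hlen k⟩ : Fin (⌊(d * C : ℝ) / ε⌋₊ + 1)))
  have hK' : {k | (I' k).length = (K : ℕ)}.Infinite := by
    have h1 := Set.infinite_coe_iff.1 hK
    refine h1.mono ?_
    intro k hk
    exact congrArg Fin.val hk
  obtain ⟨ψ, hψ, hψK⟩ := Filter.extraction_of_frequently_atTop
    (Nat.frequently_atTop_iff_infinite.2 hK')
  choose f hf using fun k => exists_fn (I' (ψ k)) (hψK k)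
  have hfmem : ∀ k j, f k j ∈ I' (ψ k) := fun k j => by
    rw [hf k, List.mem_ofFn]
    exact ⟨j, rfl⟩
  -- monotone subsequences
  have hbP : (Set.univ.pi fun _ : Fin d => (AddSubmonoid.closure Γ : Set ℝ)).IsPWO :=
    Set.IsPWO.pi fun _ => hWF.addSubmonoid_closure hΓ
  obtain ⟨g1, hg1⟩ := hbP.exists_monotone_subseq (f := fun k i => b (ψ k) i) (by
    intro k i _
    exact hbΓ (ψ k) i)
  have hR : {x : ℝ × Set (Fin d → ℕ) | x.1 ∈ Γ}.PartiallyWellOrderedOn Ri := by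
    have h1 := Set.PartiallyWellOrderedOn.prod (r := (· ≤ ·)) (r' := Sm (d := d)) hWF
      (Set.partiallyWellOrderedOn_of_wellQuasiOrdered sm_wqo Set.univ)
    refine h1.mono ?_
    intro x hx
    exact ⟨hx, Set.mem_univ _⟩
  have hRpi := Set.PartiallyWellOrderedOn.pi (ι := Fin (K : ℕ))
    (r := fun _ => Ri (d := d)) (s := fun _ => {x : ℝ × Set (Fin d → ℕ) | x.1 ∈ Γ})
    (fun _ => hR)
  have : IsPreorder (Fin (K : ℕ) → ℝ × Set (Fin d → ℕ)) (fun a c => ∀ i, Ri (a i) (c i)) :=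
    { refl := fun a i => refl_of Ri (a i)
      trans := fun a c e hac hce i => trans_of Ri (hac i) (hce i) }
  obtain ⟨g2, hg2⟩ := hRpi.exists_monotone_subseq (f := fun k => f (g1 k)) (by
    intro k j _
    exact (hIΓ _ _ (hI' _ _ (hfmem (g1 k) j)).1).1)
  set θ : ℕ → ℕ := fun k => g1 (g2 k) with hθ
  have hθm : StrictMono θ := g1.strictMono.comp g2.strictMono
  set B : ℕ → Fin d → ℝ := fun k i => b (ψ (θ k)) i with hB
  set M : ℕ → Fin (K : ℕ) → ℝ := fun k j => (f (θ k) j).1 with hM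
  set E : ℕ → Fin (K : ℕ) → Set (Fin d → ℕ) := fun k j => (f (θ k) j).2 with hE
  have hBmono : ∀ k l, k ≤ l → ∀ i, B k i ≤ B l i := fun k l hkl i =>
    hg1 (g2.monotone hkl) i
  have hMmono : ∀ k l, k ≤ l → ∀ j, M k j ≤ M l j := fun k l hkl j => (hg2 k l hkl j).1
  have hEmono : ∀ k l, k ≤ l → ∀ j, Sm (E k j) (E l j) := fun k l hkl j => (hg2 k l hkl j).2
  have hGF : ∀ k (u : Fin d → ℝ), (∀ i, 0 < u i) →
      GC (C : ℝ) (b (ψ (θ k))) (I (ψ (θ k))) u = FE (C : ℝ) (B k) (M k) (E k) u := by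
    intro k u hu
    rw [hGI _ u hu, hf (θ k), GC_ofFn]
  have hpart : ∀ k j, Rel (f (θ k) j) ∧ ε ≤ M k j ∧ (E k j).Nonempty := fun k j =>
    hI'Γ _ _ (hfmem (θ k) j)
  have hM0 : ∀ k j, 0 ≤ M k j := fun k j => hε.le.trans (hpart k j).2.1
  have hEne : ∀ k j, (E k j).Nonempty := fun k j => (hpart k j).2.2
  -- bounds
  have hsum2 : ∀ k j, M k j * od (E k j) (fun _ => (1 : ℝ)) ≤ d * C := by
    intro k j
    have h1 := hG (ψ (θ k)) (fun _ => 1) (fun _ => one_pos)
    rw [hGF k _ (fun _ => one_pos)] at h1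
    simp only [FE, one_mul] at h1
    have h2 := sum_C_sub_le (C : ℝ) (b := B k) (fun i => hb0 _ i)
    have h3 := Finset.single_le_sum (f := fun j => M k j * od (E k j) (fun _ => (1 : ℝ)))
      (fun j _ => mul_nonneg (hM0 k j) (od_nonneg _ fun _ => one_pos)) (Finset.mem_univ j)
    linarith
  have hod1 : ∀ k j, 1 ≤ od (E k j) (fun _ => (1 : ℝ)) := fun k j =>
    one_le_od (hEne k j) (hpart k j).1.2
  have hMd : ∀ k j, M k j ≤ d * C := by
    intro k j
    have h1 := hsum2 k j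
    have h2 := hod1 k j
    have h3 := hM0 k j
    nlinarith
  have hodd : ∀ k j, od (E k j) (fun _ => (1 : ℝ)) ≤ d * C / ε := by
    intro k j
    rw [le_div_iff₀ hε]
    have h1 := hsum2 k j
    have h2 := hod1 k j
    have h3 := (hpart k j).2.1
    nlinarith
  have hB1 : ∀ k i, B k i ≤ C := fun k i =>
    b_le_C (Nat.cast_nonneg C) (hb0 _) (fun a ha => hΓ _ (hIΓ _ a ha).1) (hG (ψ (θ k))) i
  -- limits
  have hBbdd : ∀ i, BddAbove (Set.range fun k => B k i) := fun i =>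
    ⟨C, by rintro _ ⟨k, rfl⟩; exact hB1 k i⟩
  have hMbdd : ∀ j, BddAbove (Set.range fun k => M k j) := fun j =>
    ⟨d * C, by rintro _ ⟨k, rfl⟩; exact hMd k j⟩
  set Bi : Fin d → ℝ := fun i => ⨆ k, B k i with hBi
  set Mi : Fin (K : ℕ) → ℝ := fun j => ⨆ k, M k j with hMi
  set Ei : Fin (K : ℕ) → Set (Fin d → ℕ) := fun j => Einf (fun k => E k j) with hEi
  have hBt : ∀ i, Tendsto (fun k => B k i) atTop (𝓝 (Bi i)) := fun i =>
    tendsto_atTop_ciSup (fun k l hkl => hBmono k l hkl i) (hBbdd i)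
  have hMt : ∀ j, Tendsto (fun k => M k j) atTop (𝓝 (Mi j)) := fun j =>
    tendsto_atTop_ciSup (fun k l hkl => hMmono k l hkl j) (hMbdd j)
  have hBle : ∀ k i, B k i ≤ Bi i := fun k i => le_ciSup (hBbdd i) k
  have hMle : ∀ k j, M k j ≤ Mi j := fun k j => le_ciSup (hMbdd j) k
  have hEine : ∀ j, (Ei j).Nonempty := by
    intro j
    obtain ⟨e, he, _⟩ := limset (E := fun k => E k j) (fun k => hEne k j)
      (fun k l hkl => hEmono k l hkl j) (u := fun _ => 1) (fun _ => one_pos)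
      (fun k => hodd k j)
    exact ⟨e, he⟩
  have hFi : ∀ u : Fin d → ℝ, (∀ i, 0 < u i) → 0 ≤ FE (C : ℝ) Bi Mi Ei u := by
    intro u hu
    choose m hm using fun j => Einf_eventually (E := fun k => E k j) (fun k => hEne k j)
      (fun k l hkl => hEmono k l hkl j) (hEine j) hu
    have ht : Tendsto (fun k => ∑ i, u i * ((C : ℝ) - B k i) -
        ∑ j, M k j * od (Ei j) u) atTop (𝓝 (FE (C : ℝ) Bi Mi Ei u)) := by
      simp only [FE]
      refine Tendsto.sub ?_ ?_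
      · exact tendsto_finsetSum _ fun i _ => (tendsto_const_nhds.sub (hBt i)).const_mul _
      · exact tendsto_finsetSum _ fun j _ => (hMt j).mul_const _
    refine ge_of_tendsto ht ?_
    filter_upwards [eventually_ge_atTop (∑ j, m j)] with k hk
    have h1 := hG (ψ (θ k)) u hu
    rw [hGF k u hu] at h1
    have h2 : FE (C : ℝ) (B k) (M k) (E k) u =
        ∑ i, u i * ((C : ℝ) - B k i) - ∑ j, M k j * od (Ei j) u := by
      simp only [FE]
      congr 1
      refine Finset.sum_congr rfl fun j _ => ?_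
      have h3 : m j ≤ k := (Finset.single_le_sum (f := m) (fun _ _ => Nat.zero_le _)
        (Finset.mem_univ j)).trans hk
      rw [← hm j k h3]
    rw [← h2]
    exact h1
  have hBi0 : ∀ i, 0 ≤ Bi i := fun i => (hb0 _ i).trans (hBle 0 i)
  have hMi0 : ∀ j, 0 ≤ Mi j := fun j => (hM0 0 j).trans (hMle 0 j)
  obtain ⟨R, hR⟩ := step (C := C) hEine hBi0 hMi0 hFi
  obtain ⟨k, hk⟩ := exists_nat_gt R
  have hk2 : R < ∑ i, w (ψ (θ k)) i := by
    refine hk.trans (lt_of_le_of_lt ?_ (hwk (ψ (θ k))))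
    have : k ≤ ψ (θ k) := (hθm.id_le k).trans (hψ.id_le _)
    exact_mod_cast this
  obtain ⟨z, hz0, hzw, hzle⟩ := hR (B k) (M k) (E k) (hBle k) (hM0 k) (hMle k) (hEne k)
    (fun j => sm_Einf (fun k => E k j) k) (w (ψ (θ k))) (hw _) hk2
  have hz' := hz (ψ (θ k)) z hz0 hzw
  rw [hGF k _ (hw _), hGF k _ (fun i => sub_pos.2 (hzw i))] at hz'
  exact absurd hzle (not_le.2 hz')

end Pool.Agent.helper20.BDA
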