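import Pool.Agent.helper20.BDA.RedA

/-!
# Uniform boundedness of the invariant divisors which compute minimal log discrepancies on
arrangement varieties
-/

noncomputable section

namespace Pool.Agent.helper20.BDA

open Finset Pool.Agent.helper22.ARR

variable {n r c : ℕ} {Γ : Set ℝ} {t : GenPair (Fin n ⊕ Fin r)}

theorem TBD.mono {ι : Type} [Fintype ι] {Γ : Set ℝ} {C R R' : ℝ} (h : TBD ι Γ C R)
    (hR : R ≤ R') : TBD ι Γ C R' := by
  intro t ht z hz
  obtain ⟨z', μ, h1, h2, h3, h4, h5⟩ := h t ht z hz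
  exact ⟨z', μ, h1, h2, h3.trans hR, h4, h5⟩

theorem Bdd.mono {R R' : ℝ} {z : Fin n ⊕ Fin r → ℤ} (h : Bdd R t z) (hR : R ≤ R') :
    Bdd R' t z := by
  obtain ⟨μ, s, h1, h2, h3⟩ := h
  exact ⟨μ, s, h1, h2, h3.trans hR⟩

theorem attain (ht : IsLC c Γ t) {R : ℝ} (P : (Fin n ⊕ Fin r → ℤ) → Prop)
    (L : (Fin n ⊕ Fin r → ℤ) → ℝ) (B : Fin n ⊕ Fin r → ℝ)
    (h1 : ∀ Z, P Z → ∀ j, |(Z j : ℝ)| ≤ B j)
    (h2 : ∀ Z, P Z → ∃ z, Trop c z ∧ toReal z ∈ interior (bigCone t) ∧ Bdd R t z ∧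
      logDisc t (toReal z) ≤ L Z)
    (h3 : ∀ z₀, Trop c z₀ → toReal z₀ ∈ interior (bigCone t) →
      ∃ Z, P Z ∧ L Z ≤ logDisc t (toReal z₀)) :
    ∃ z, Trop c z ∧ toReal z ∈ interior (bigCone t) ∧ Bdd R t z ∧
      logDisc t (toReal z) = mld c t := by
  classical
  have hfin : {Z | P Z}.Finite := by
    refine (Set.Finite.pi' (fun j => Set.finite_Icc (-⌈B j⌉) ⌈B j⌉)).subset ?_
    intro Z hZ j
    have h4 := h1 Z hZ j
    have h5 : ((|Z j| : ℤ) : ℝ) ≤ ((⌈B j⌉ : ℤ) : ℝ) := by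
      push_cast
      exact h4.trans (Int.le_ceil _)
    have h6 : |Z j| ≤ ⌈B j⌉ := by exact_mod_cast h5
    exact Set.mem_Icc.2 (abs_le.1 h6)
  obtain ⟨z0, hz0, hz0'⟩ := exists_int ht
  obtain ⟨Z0, hZ0, _⟩ := h3 z0 hz0 hz0'
  obtain ⟨Z, hZ, hmin⟩ := Set.exists_min_image _ L hfin ⟨Z0, hZ0⟩
  obtain ⟨z, hz1, hz2, hz3, hz4⟩ := h2 Z hZ
  refine ⟨z, hz1, hz2, hz3, le_antisymm ?_ (mld_le ht hz1 hz2)⟩
  have hne : {x | ∃ z, Trop c z ∧ toReal z ∈ interior (bigCone t) ∧
      x = logDisc t (toReal z)}.Nonempty := ⟨_, z0, hz0, hz0', rfl⟩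
  refine le_csInf hne ?_
  rintro _ ⟨y, hy, hy', rfl⟩
  obtain ⟨Y, hY, hYle⟩ := h3 y hy hy'
  exact hz4.trans ((hmin Y hY).trans hYle)

/-- the statement for one pair -/
theorem bdOne (ht : IsLC c Γ t) (hΓ : ∀ x ∈ Γ, 0 ≤ x) {R : ℝ} (hR0 : 0 ≤ R)
    (hR : ∀ q < 3 * c + 4, TBD (Fin n ⊕ Fin q) (insert 1 Γ) ((c : ℝ) + 1) R) :
    ∃ z, Trop c z ∧ toReal z ∈ interior (bigCone t) ∧ Bdd ((c + 1) * R) t z ∧
      logDisc t (toReal z) = mld c t := by
  classical
  by_cases hB : ∀ φ, Sel t φ → ∑ y, (Ny t φ y : ℝ) ≤ NN t φ * ∑ y, t.psi (Sum.inr y)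
  · refine attain ht (fun z => Trop c z ∧ toReal z ∈ interior (bigCone t) ∧ Bdd R t z ∧
      ∀ j, |(z j : ℝ)| ≤ R * (∑ i, |(t.v i j : ℝ)| + ∑ φ, |(X0 t φ j : ℝ)|))
      (fun z => logDisc t (toReal z)) _ (fun Z hZ => hZ.2.2.2) ?_ ?_
    · rintro Z ⟨h1, h2, h3, _⟩
      refine ⟨Z, h1, h2, h3.mono ?_, le_rfl⟩
      have hc : (0 : ℝ) ≤ c := Nat.cast_nonneg _
      nlinarith
    · intro z₀ hz hz2
      set I := univ.filter fun y => z₀ (Sum.inr y) ≠ 0 with hI
      have hIcard : I.card ≤ c := by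
        have := hz.2
        convert this
      have hIm : ∀ y, y ∈ I ↔ z₀ (Sum.inr y) ≠ 0 := fun y => by simp [hI]
      set e : Fin I.card → Fin r := fun k => (I.equivFin.symm k : Fin r) with he
      have hinj : Function.Injective e := fun a b h => by
        simpa using Subtype.ext h
      have hrange : ∀ y, y ∈ Set.range e ↔ z₀ (Sum.inr y) ≠ 0 := by
        intro y
        constructor
        · rintro ⟨k, rfl⟩
          exact (hIm _).1 (I.equivFin.symm k).2
        · intro hy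
          refine ⟨I.equivFin ⟨y, (hIm y).2 hy⟩, ?_⟩
          simp [he]
      obtain ⟨z, h1, h2, h3, h4, h5⟩ := bdB ht hΓ hB hinj hIcard (hR I.card (by omega)) hz hz2
        (fun y hy => by
          by_contra hcon
          exact hy ((hrange y).2 hcon)) (fun k => (hrange _).1 ⟨k, rfl⟩)
      exact ⟨z, ⟨h1, h2, h3, h4⟩, h5⟩
  · push Not at hB
    obtain ⟨φ, hφ, hne⟩ := hB
    have hNN : (0 : ℝ) < NN t φ := by exact_mod_cast NN_pos ht hφ
    have hdeg : ∑ y, (1 - t.psi (Sum.inr y)) = c + 1 := by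
      rcases ht.degree with h | h
      · exact h
      · exfalso
        have h1 : ∑ y, t.psi (Sum.inr y) = r := by
          rw [Finset.sum_sub_distrib] at h
          simp only [Finset.sum_const, Finset.card_univ, Fintype.card_fin, nsmul_eq_mul,
            mul_one] at h
          linarith
        rw [h1] at hne
        have h2 : ∑ y, (Ny t φ y : ℝ) ≤ ∑ _y : Fin r, (NN t φ : ℝ) :=
          Finset.sum_le_sum fun y _ => by exact_mod_cast Ny_le ht hφ y
        simp only [Finset.sum_const, Finset.card_univ, Fintype.card_fin, nsmul_eq_mul] at h2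
        linarith
    have hχ : ∑ y, (1 - ((t.v (φ y) (Sum.inr y) : ℝ))⁻¹) < c + 1 := by
      have h1 : ∑ y, t.psi (Sum.inr y) = r - (c + 1) := by
        rw [Finset.sum_sub_distrib] at hdeg
        simp only [Finset.sum_const, Finset.card_univ, Fintype.card_fin, nsmul_eq_mul,
          mul_one] at hdeg
        linarith
      have h2 : ∀ y, (Ny t φ y : ℝ) = NN t φ * ((t.v (φ y) (Sum.inr y) : ℝ))⁻¹ := by
        intro y
        have h3 : (0 : ℝ) < t.v (φ y) (Sum.inr y) := by exact_mod_cast ht.col_pos (hφ y)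
        have h4 : (Ny t φ y : ℝ) * (t.v (φ y) (Sum.inr y) : ℝ) = NN t φ := by
          exact_mod_cast Ny_mul t φ y
        rw [← h4]
        field_simp
      rw [h1, Finset.sum_congr rfl fun y _ => h2 y, ← Finset.mul_sum] at hne
      have h3 := lt_of_mul_lt_mul_left hne hNN.le
      rw [Finset.sum_sub_distrib]
      simp only [Finset.sum_const, Finset.card_univ, Fintype.card_fin, nsmul_eq_mul, mul_one]
      linarith
    refine attain ht (fun Z => (∀ j, |(Z j : ℝ)| ≤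
        R * (1 + r * ∑ i, |(t.v i j : ℝ)| + ∑ i, |(t.v i j : ℝ)|)) ∧
        ∃ z, Trop c z ∧ toReal z ∈ interior (bigCone t) ∧
        Bdd ((c + 1) * R) t z ∧ logDisc t (toReal z) ≤ logDisc (big c t) (toReal Z))
      (fun Z => logDisc (big c t) (toReal Z)) _ (fun Z hZ => hZ.1) (fun Z hZ => hZ.2) ?_
    intro z₀ hz hz2
    set I := univ.filter fun y => z₀ (Sum.inr y) ≠ 0 with hI
    have hIcard : I.card ≤ c := by
      have := hz.2
      convert this
    have hIm : ∀ y, y ∈ I ↔ z₀ (Sum.inr y) ≠ 0 := fun y => by simp [hI]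
    set W := univ.filter fun y => ∃ i, 2 ≤ t.v i (Sum.inr y) with hW
    have hWcard : W.card ≤ 2 * (c + 1) :=
      card_mult ht hΓ hdeg (fun y hy => by simpa [hW] using hy)
    set U := W ∪ I with hU
    have hUcard : U.card ≤ 3 * c + 2 := by
      have := Finset.card_union_le W I
      rw [← hU] at this
      omega
    set f : Fin r → Option (Fin r) := fun y => if y ∈ U then some y else none with hf
    set S := univ.image f with hS
    have hScard : S.card ≤ 3 * c + 3 := by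
      have h1 : S ⊆ insert none (U.image some) := by
        intro a ha
        rw [hS, Finset.mem_image] at ha
        obtain ⟨y, _, rfl⟩ := ha
        simp only [hf]
        split_ifs with h
        · exact Finset.mem_insert_of_mem (Finset.mem_image_of_mem _ h)
        · exact Finset.mem_insert_self _ _
      have h2 := Finset.card_le_card h1
      have h3 := Finset.card_insert_le none (U.image some)
      have h4 : (U.image some).card ≤ U.card := Finset.card_image_le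
      omega
    have hfS : ∀ y, f y ∈ S := fun y => Finset.mem_image_of_mem _ (Finset.mem_univ y)
    set π : Fin r → Fin S.card := fun y => S.equivFin ⟨f y, hfS y⟩ with hπ
    have hsec : ∀ k : Fin S.card, ∃ y, π y = k := by
      intro k
      obtain ⟨y, _, hy⟩ := Finset.mem_image.1
        (show ((S.equivFin.symm k : S) : Option (Fin r)) ∈ univ.image f from (S.equivFin.symm k).2)
      refine ⟨y, ?_⟩
      simp only [hπ]
      rw [← Equiv.eq_symm_apply]
      exact Subtype.ext hy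
    choose sec hsec using hsec
    have hπf : ∀ y y', π y = π y' → y ≠ y' → y ∉ U := by
      intro y y' h hne' hy
      have h1 : f y = f y' := by
        have := S.equivFin.injective h
        simpa using this
      simp only [hf, if_pos hy] at h1
      split_ifs at h1 with h2
      exact hne' (by simpa using h1)
    obtain ⟨Z, h1, h2, h3⟩ := bdA ht hΓ hdeg hφ hχ hsec (by
      intro y y' h hne' i hi
      have h1 := hπf y y' h hne'
      have h2 : y ∉ W := fun h3 => h1 (Finset.mem_union_left _ h3)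
      have h3 : ¬ 2 ≤ t.v i (Sum.inr y) := fun h4 => h2 (by
        rw [hW, Finset.mem_filter]; exact ⟨Finset.mem_univ _, i, h4⟩)
      have h4 := ht.col_pos hi
      omega) (hR S.card (by omega)) hz hz2 (by
      intro y y' h hne'
      have h1 := hπf y y' h hne'
      by_contra hcon
      exact h1 (Finset.mem_union_right _ ((hIm y).2 hcon)))
    exact ⟨Z, ⟨h1, h3⟩, h2⟩

/-- the divisor can be taken primitive -/
theorem prim (ht : IsLC c Γ t) {R : ℝ} (hR0 : 0 ≤ R)
    (h : ∃ z, Trop c z ∧ toReal z ∈ interior (bigCone t) ∧ Bdd R t z ∧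
      logDisc t (toReal z) = mld c t) :
    ∃ z, Trop c z ∧ toReal z ∈ interior (bigCone t) ∧ Bdd R t z ∧
      (∀ (m : ℕ) (y : Fin n ⊕ Fin r → ℤ), 2 ≤ m → (∀ j, z j = m * y j) → z = 0) ∧
      logDisc t (toReal z) = mld c t := by
  classical
  obtain ⟨z₀, hz₀⟩ := h
  obtain ⟨z, ⟨hz1, hz2, hz3, hz4⟩, hmin⟩ : ∃ z : Fin n ⊕ Fin r → ℤ,
      (Trop c z ∧ toReal z ∈ interior (bigCone t) ∧ Bdd R t z ∧
        logDisc t (toReal z) = mld c t) ∧
      ∀ y : Fin n ⊕ Fin r → ℤ, (Trop c y ∧ toReal y ∈ interior (bigCone t) ∧ Bdd R t y ∧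
        logDisc t (toReal y) = mld c t) → ∑ j, (z j).natAbs ≤ ∑ j, (y j).natAbs := by
    have hex : ∃ k : ℕ, ∃ z : Fin n ⊕ Fin r → ℤ, (Trop c z ∧ toReal z ∈ interior (bigCone t) ∧
        Bdd R t z ∧ logDisc t (toReal z) = mld c t) ∧ ∑ j, (z j).natAbs = k :=
      ⟨_, z₀, hz₀, rfl⟩
    obtain ⟨z, hz, hzk⟩ := Nat.find_spec hex
    refine ⟨z, hz, fun y hy => ?_⟩
    rw [hzk]
    exact Nat.find_min' hex ⟨y, hy, rfl⟩
  refine ⟨z, hz1, hz2, hz3, fun m y hm hzy => ?_, hz4⟩
  have hmr : (2 : ℝ) ≤ m := by exact_mod_cast hm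
  have hm0 : (0 : ℝ) < m := by linarith
  have hmz : (0 : ℤ) < m := by exact_mod_cast (by omega : 0 < m)
  have hy : toReal y = (m : ℝ)⁻¹ • toReal z := by
    funext j
    simp only [toReal, Pi.smul_apply, smul_eq_mul, hzy j]
    push_cast
    field_simp
  have hytr : Trop c y := by
    refine ⟨fun k => ?_, ?_⟩
    · have h1 := hz1.1 k
      rw [hzy] at h1
      exact nonneg_of_mul_nonneg_right h1 hmz
    · refine le_trans (Finset.card_le_card ?_) hz1.2
      intro k hk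
      rw [Finset.mem_filter] at hk ⊢
      refine ⟨hk.1, ?_⟩
      rw [hzy]
      exact mul_ne_zero hmz.ne' hk.2
  have hyint : toReal y ∈ interior (bigCone t) := by
    rw [hy]
    rw [bigCone_eq] at hz2 ⊢
    exact interior_smul _ hz2 (inv_pos.2 hm0)
  have hinv1 : (m : ℝ)⁻¹ ≤ 1 / 2 := by
    rw [inv_eq_one_div]
    exact one_div_le_one_div_of_le (by norm_num) hmr
  have hinv0 : 0 < (m : ℝ)⁻¹ := inv_pos.2 hm0
  have hyb : Bdd R t y := by
    obtain ⟨μ, s, h1, h2, h3⟩ := hz3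
    refine ⟨fun i => (m : ℝ)⁻¹ * μ i, (m : ℝ)⁻¹ * s, fun i => mul_nonneg hinv0.le (h1 i),
      fun j => ?_, ?_⟩
    · have h4 := congrFun hy j
      simp only [toReal, Pi.smul_apply, smul_eq_mul] at h4
      rw [h4, h2 j, mul_add, Finset.mul_sum]
      congr 1
      · exact Finset.sum_congr rfl fun i _ => by ring
      · ring
    · rw [← Finset.mul_sum, mul_assoc, ← mul_add]
      nlinarith
  have hyl : logDisc t (toReal y) = (m : ℝ)⁻¹ * mld c t := by
    rw [hy, logDisc_smul t hinv0.le, hz4]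
  have h0 : 0 ≤ mld c t := by
    rw [← hz4]
    exact ht.lc z hz1 (interior_subset hz2)
  have h1 : mld c t ≤ (m : ℝ)⁻¹ * mld c t := by
    rw [← hyl]
    exact mld_le ht hytr hyint
  have h3 : mld c t = 0 := by nlinarith
  have h4 := hmin y ⟨hytr, hyint, hyb, by rw [hyl, h3, mul_zero]⟩
  have h5 : ∑ j, (z j).natAbs = m * ∑ j, (y j).natAbs := by
    rw [Finset.mul_sum]
    refine Finset.sum_congr rfl fun j _ => ?_
    rw [hzy j, Int.natAbs_mul, Int.natAbs_natCast]
  have h6 : ∑ j, (y j).natAbs = 0 := by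
    rw [h5] at h4
    by_contra hne
    have h7 : 1 ≤ ∑ j, (y j).natAbs := Nat.one_le_iff_ne_zero.2 hne
    nlinarith
  rw [h6, mul_zero] at h5
  have h7 := Finset.sum_eq_zero_iff.1 h5
  funext j
  exact Int.natAbs_eq_zero.1 (h7 j (Finset.mem_univ j))

theorem main (d : ℕ) (Γ : Set ℝ) (hΓ : ∀ x ∈ Γ, 0 ≤ x)
    (hdcc : ¬ ∃ f : ℕ → ℝ, StrictAnti f ∧ ∀ k, f k ∈ Γ) :
    ∃ R : ℝ, ∀ (n c r : ℕ) (t : GenPair (Fin n ⊕ Fin r)), n + c = d → IsLC c Γ t →
      ∃ z, Trop c z ∧ toReal z ∈ interior (bigCone t) ∧ Bdd R t z ∧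
        (∀ (m : ℕ) (y : Fin n ⊕ Fin r → ℤ), 2 ≤ m → (∀ j, z j = m * y j) → z = 0) ∧
        logDisc t (toReal z) = mld c t := by
  classical
  have hΓ' : ∀ x ∈ insert 1 Γ, (0 : ℝ) ≤ x := by
    intro x hx
    rcases Set.mem_insert_iff.1 hx with rfl | hx
    · exact zero_le_one
    · exact hΓ x hx
  have hWF : (insert 1 Γ).IsPWO := by
    have hWF : Γ.IsPWO := by
      rw [Set.isPWO_iff_isWF, Set.isWF_iff_no_descending_seq]
      intro f hf hmem
      exact hdcc ⟨f, hf, hmem⟩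
    exact hWF.insert 1
  choose R hR0 hR using fun n c q : ℕ =>
    toricBD (ι := Fin n ⊕ Fin q) hΓ' hWF (C := c + 1) (Nat.succ_pos c)
  have hT : ∀ n c q : ℕ, TBD (Fin n ⊕ Fin q) (insert 1 Γ) ((c : ℝ) + 1) (R n c q) := by
    intro n c q
    have := hR n c q
    push_cast at this
    exact this
  set S : ℕ → ℕ → ℝ := fun n c => ∑ q ∈ range (3 * c + 4), R n c q with hS
  have hS0 : ∀ n c, 0 ≤ S n c := fun n c => Finset.sum_nonneg fun q _ => hR0 n c q
  have hS1 : ∀ n c : ℕ, 0 ≤ ((c : ℝ) + 1) * S n c := fun n c =>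
    mul_nonneg (by positivity) (hS0 n c)
  refine ⟨∑ n ∈ range (d + 1), ∑ c ∈ range (d + 1), ((c : ℝ) + 1) * S n c, ?_⟩
  intro n c r t hd ht
  have hle : ((c : ℝ) + 1) * S n c ≤
      ∑ n ∈ range (d + 1), ∑ c ∈ range (d + 1), ((c : ℝ) + 1) * S n c := by
    have h1 := Finset.single_le_sum (f := fun c : ℕ => ((c : ℝ) + 1) * S n c)
      (fun c _ => hS1 n c) (Finset.mem_range.2 (by omega : c < d + 1))
    have h2 := Finset.single_le_sum (f := fun n : ℕ => ∑ c ∈ range (d + 1), ((c : ℝ) + 1) * S n c)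
      (fun n _ => Finset.sum_nonneg fun c _ => hS1 n c) (Finset.mem_range.2 (by omega : n < d + 1))
    exact h1.trans h2
  obtain ⟨z, h1, h2, h3, h4⟩ := bdOne ht hΓ (hS0 n c) (fun q hq => (hT n c q).mono
    (Finset.single_le_sum (f := fun q => R n c q) (fun q _ => hR0 n c q)
      (Finset.mem_range.2 hq)))
  exact prim ht ((hS1 n c).trans hle) ⟨z, h1, h2, h3.mono hle, h4⟩

end Pool.Agent.helper20.BDA
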