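import Pool.Agent.helper22.ARR.Main

/-!
# Combinatorial inversion of adjunction with control of the size
-/

noncomputable section

namespace Pool.Agent.helper20.BDA

open Finset Pool.Agent.helper22.ARR

variable {n r c : ℕ} {Γ : Set ℝ} {t : GenPair (Fin n ⊕ Fin r)}

theorem tp_greedy (ht : IsLC c Γ t) (x : Fin n ⊕ Fin r → ℤ) {i : Fin t.p}
    {y0 : Fin r} (hi : t.v i (Sum.inr y0) ≠ 0) {Q : Finset (Fin r)} (hQ : Q.card = c + 1)
    (hQx : ∀ y ∈ Q, x (Sum.inr y0) + 1 ≤ x (Sum.inr y)) :
    tp c (toReal (x + t.v i)) ≤ tp c (toReal x) + (t.v i (Sum.inr y0) : ℝ) - 1 := by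
  classical
  rw [toReal_add]
  have hμ := ht.col_pos hi
  set μ := t.v i (Sum.inr y0) with hμdef
  have hg : ∀ y, y ≠ y0 → toReal (t.v i) (Sum.inr y) = 0 := by
    intro y hy
    simp only [toReal]
    rw [ht.col_eq hi hy]; simp
  have hg0 : toReal (t.v i) (Sum.inr y0) = μ := rfl
  have hsum : ∀ R : Finset (Fin r), y0 ∈ R → ∑ y ∈ R, toReal (t.v i) (Sum.inr y) = μ := by
    intro R hR
    rw [Finset.sum_eq_single y0 (fun y _ hy => hg y hy) (fun h => absurd hR h), hg0]
  have hsum0 : ∀ R : Finset (Fin r), y0 ∉ R → ∑ y ∈ R, toReal (t.v i) (Sum.inr y) = 0 := by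
    intro R hR
    apply Finset.sum_eq_zero
    intro y hy
    exact hg y (fun h => hR (h ▸ hy))
  have hμ1 : (1 : ℝ) ≤ (μ : ℝ) := by exact_mod_cast hμ
  obtain ⟨R, hR, h⟩ := exists_tp ht.size (toReal x + toReal (t.v i))
  rw [h]
  simp only [Pi.add_apply, Finset.sum_add_distrib]
  by_cases hy0 : y0 ∈ R
  · rw [hsum R hy0]
    have hcard : (R.erase y0).card < Q.card := by
      rw [Finset.card_erase_of_mem hy0, hR, hQ]; omega
    obtain ⟨y1, hy1Q, hy1R⟩ := Finset.exists_mem_notMem_of_card_lt_card hcard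
    have hR'card : (insert y1 (R.erase y0)).card = c + 1 := by
      rw [Finset.card_insert_of_notMem hy1R, Finset.card_erase_of_mem hy0, hR]
      omega
    have h5 := le_tp (toReal x) hR'card
    rw [Finset.sum_insert hy1R] at h5
    have h6 := Finset.add_sum_erase R (fun y => toReal x (Sum.inr y)) hy0
    have h7 : toReal x (Sum.inr y0) + 1 ≤ toReal x (Sum.inr y1) := by
      simp only [toReal]
      exact_mod_cast hQx y1 hy1Q
    linarith
  · rw [hsum0 R hy0]
    have := le_tp (toReal x) hR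
    linarith

theorem pia2 {φ : Fin r → Fin t.p} (ht : IsLC c Γ t) (hΓ : ∀ x ∈ Γ, 0 ≤ x)
    (hdeg : ∑ y, (1 - t.psi (Sum.inr y)) = c + 1) (hφ : Sel t φ)
    (hχ : ∑ y, (1 - ((t.v (φ y) (Sum.inr y) : ℝ))⁻¹) < c + 1) (z : Fin n ⊕ Fin r → ℤ) :
    ∃ (m : Fin r → ℕ) (s : ℤ),
      Trop c (addM t φ z (fun y => (m y : ℤ)) - s • diag n r) ∧
      logDisc t (toReal (addM t φ z (fun y => (m y : ℤ)) - s • diag n r)) ≤
        logDisc (big c t) (toReal z) ∧
      ∑ y, (m y : ℝ) - s * (r - (c + 1)) ≤ tp c (toReal z) - ∑ y, (z (Sum.inr y) : ℝ) := by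
  classical
  set L := fun x : Fin n ⊕ Fin r → ℤ => logDisc (big c t) (toReal x) with hL
  set μ := fun y => t.v (φ y) (Sum.inr y) with hμ
  have hμp : ∀ y, 0 < μ y := fun y => ht.col_pos (hφ y)
  have hμr : ∀ y, (1 : ℝ) ≤ μ y := fun y => by exact_mod_cast hμp y
  have hr : 0 < r := lt_of_le_of_lt (Nat.zero_le _) ht.size
  let y0 : Fin r := ⟨0, hr⟩
  -- bound for differences and multiplicities
  obtain ⟨D, hD1, hD2, hD0⟩ : ∃ D : ℤ, (∀ y y', z (Sum.inr y) - z (Sum.inr y') ≤ D) ∧
      (∀ y, μ y ≤ D) ∧ 0 ≤ D := by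
    have h4 : 0 ≤ ∑ y, μ y := Finset.sum_nonneg fun y _ => (hμp y).le
    have h5 : 0 ≤ ∑ y, ∑ y', |z (Sum.inr y) - z (Sum.inr y')| :=
      Finset.sum_nonneg fun _ _ => Finset.sum_nonneg fun _ _ => abs_nonneg _
    refine ⟨∑ y, ∑ y', |z (Sum.inr y) - z (Sum.inr y')| + ∑ y, μ y, ?_, ?_, by linarith⟩
    · intro y y'
      have h1 : z (Sum.inr y) - z (Sum.inr y') ≤ |z (Sum.inr y) - z (Sum.inr y')| := le_abs_self _
      have h2 : |z (Sum.inr y) - z (Sum.inr y')| ≤ ∑ y', |z (Sum.inr y) - z (Sum.inr y')| :=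
        Finset.single_le_sum (f := fun y' => |z (Sum.inr y) - z (Sum.inr y')|)
          (fun _ _ => abs_nonneg _) (Finset.mem_univ y')
      have h3 : ∑ y', |z (Sum.inr y) - z (Sum.inr y')| ≤
          ∑ y, ∑ y', |z (Sum.inr y) - z (Sum.inr y')| :=
        Finset.single_le_sum (f := fun y => ∑ y', |z (Sum.inr y) - z (Sum.inr y')|)
          (fun _ _ => Finset.sum_nonneg fun _ _ => abs_nonneg _) (Finset.mem_univ y)
      linarith
    · intro y
      have h3 : μ y ≤ ∑ y, μ y :=
        Finset.single_le_sum (f := μ) (fun y _ => (hμp y).le) (Finset.mem_univ y)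
      linarith
  -- the set of admissible moves
  set xm := fun m : Fin r → ℕ => addM t φ z (fun y => (m y : ℤ)) with hxm
  have hxmy : ∀ m y, xm m (Sum.inr y) = z (Sum.inr y) + m y * μ y :=
    fun m y => addM_inr ht hφ z _ y
  set LR : (Fin r → ℕ) → ℝ := fun m => ∑ y, (m y : ℝ) - ∑ y, (xm m (Sum.inr y) : ℝ) +
    tp c (toReal (xm m)) with hLR
  set SS : (Fin r → ℕ) → Prop := fun m =>
    (∀ y y', xm m (Sum.inr y) - xm m (Sum.inr y') ≤ D) ∧ L (xm m) ≤ L z ∧ LR m ≤ LR 0 with hSS
  have h0 : xm 0 = z := by simp [hxm, addM]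
  -- coercivity
  obtain ⟨B, hB⟩ : ∃ B : ℕ, ∀ m, SS m → ∑ y, m y ≤ B := by
    set χ : ℝ := c + 1 - ∑ y, (1 - ((μ y : ℝ))⁻¹) with hχdef
    have hχ0 : 0 < χ := by simp only [hχdef]; linarith
    set K : ℝ := ∑ y, ((D : ℝ) + |(z (Sum.inr y) : ℝ)|) + r * D + (c + 1) * D with hK
    obtain ⟨q0, hq0⟩ := exists_nat_ge ((LR 0 + K) / χ)
    have hmain : ∀ m, SS m → xm m (Sum.inr y0) ≤ q0 := by
      intro m hm
      set X : ℝ := (xm m (Sum.inr y0) : ℝ) with hX
      have hlow : ∀ y, X - D ≤ (xm m (Sum.inr y) : ℝ) := by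
        intro y
        have := hm.1 y0 y
        have h2 : ((xm m (Sum.inr y0) - xm m (Sum.inr y) : ℤ) : ℝ) ≤ D := by exact_mod_cast this
        push_cast at h2
        linarith
      have hup : ∀ y, (xm m (Sum.inr y) : ℝ) ≤ X + D := by
        intro y
        have := hm.1 y y0
        have h2 : ((xm m (Sum.inr y) - xm m (Sum.inr y0) : ℤ) : ℝ) ≤ D := by exact_mod_cast this
        push_cast at h2
        linarith
      have h1 : ∀ y, X * ((μ y : ℝ))⁻¹ - ((D : ℝ) + |(z (Sum.inr y) : ℝ)|) ≤ (m y : ℝ) := by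
        intro y
        have h2 : (xm m (Sum.inr y) : ℝ) = z (Sum.inr y) + m y * μ y := by
          rw [hxmy]; push_cast; ring
        have h3 := hlow y
        rw [h2] at h3
        have h4 := hμr y
        have h5 : (0 : ℝ) < μ y := by linarith
        have h6 := le_abs_self (z (Sum.inr y) : ℝ)
        have h7 : X ≤ (m y + (D + |(z (Sum.inr y) : ℝ)|)) * μ y := by
          have h8 : (D : ℝ) + |(z (Sum.inr y) : ℝ)| ≤ (D + |(z (Sum.inr y) : ℝ)|) * μ y := by
            have h9 : 0 ≤ (D : ℝ) + |(z (Sum.inr y) : ℝ)| := by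
              have : (0 : ℝ) ≤ D := by exact_mod_cast hD0
              positivity
            nlinarith
          nlinarith
        have h10 : X * ((μ y : ℝ))⁻¹ ≤ m y + (D + |(z (Sum.inr y) : ℝ)|) := by
          rw [← div_eq_mul_inv, div_le_iff₀ h5]
          exact h7
        linarith
      have h2 : X * ∑ y, ((μ y : ℝ))⁻¹ - ∑ y, ((D : ℝ) + |(z (Sum.inr y) : ℝ)|) ≤
          ∑ y, (m y : ℝ) := by
        rw [Finset.mul_sum, ← Finset.sum_sub_distrib]
        exact Finset.sum_le_sum fun y _ => h1 y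
      have h3 : ∑ y, (xm m (Sum.inr y) : ℝ) ≤ r * (X + D) := by
        calc ∑ y, (xm m (Sum.inr y) : ℝ) ≤ ∑ _y : Fin r, (X + D) :=
              Finset.sum_le_sum fun y _ => hup y
          _ = r * (X + D) := by
              rw [Finset.sum_const, Finset.card_univ, Fintype.card_fin, nsmul_eq_mul]
      have h4 : (c + 1) * (X - D) ≤ tp c (toReal (xm m)) := by
        obtain ⟨Q, hQ⟩ := Finset.exists_subset_card_eq (s := (univ : Finset (Fin r)))
          (n := c + 1) (by simpa using ht.size)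
        refine le_trans ?_ (le_tp (toReal (xm m)) hQ.2)
        calc ((c : ℝ) + 1) * (X - D) = ∑ _y ∈ Q, (X - D) := by
              rw [Finset.sum_const, hQ.2, nsmul_eq_mul]; push_cast; ring
          _ ≤ ∑ y ∈ Q, toReal (xm m) (Sum.inr y) := Finset.sum_le_sum fun y _ => hlow y
      have h5 : ∑ y, (1 - ((μ y : ℝ))⁻¹) = r - ∑ y, ((μ y : ℝ))⁻¹ := by
        rw [Finset.sum_sub_distrib]; simp
      have h6 : χ * X - K ≤ LR m := by
        simp only [hLR, hχdef, hK, h5]
        nlinarith
      have h7 := hm.2.2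
      have h8 : X ≤ (LR 0 + K) / χ := by
        rw [le_div_iff₀ hχ0]
        linarith
      have h9 : X ≤ q0 := h8.trans hq0
      have h10 : ((xm m (Sum.inr y0) : ℤ) : ℝ) ≤ ((q0 : ℤ) : ℝ) := by
        rw [Int.cast_natCast]; exact h9
      exact_mod_cast h10
    refine ⟨(∑ y, ((q0 : ℤ) + D + |z (Sum.inr y)|)).toNat, fun m hm => ?_⟩
    have h1 : ∀ y, (m y : ℤ) ≤ q0 + D + |z (Sum.inr y)| := by
      intro y
      have h2 := hmain m hm
      have h5 := hm.1 y y0
      have h6 := hxmy m y
      have h7 : (m y : ℤ) * 1 ≤ m y * μ y := mul_le_mul_of_nonneg_left (hμp y) (by positivity)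
      have h8 := neg_abs_le (z (Sum.inr y))
      linarith
    have h2 : ((∑ y, m y : ℕ) : ℤ) ≤ ∑ y, ((q0 : ℤ) + D + |z (Sum.inr y)|) := by
      push_cast
      exact Finset.sum_le_sum fun y _ => h1 y
    omega
  -- a maximal admissible move
  have hS0 : SS 0 := by
    refine ⟨?_, ?_, le_rfl⟩
    · rw [h0]; exact hD1
    · rw [h0]
  obtain ⟨m, hm, hmax⟩ : ∃ m, SS m ∧ ∀ m', SS m' → ∑ y, m' y ≤ ∑ y, m y := by
    set P := (range (B + 1)).filter fun k => ∃ m, SS m ∧ ∑ y, m y = k with hP
    have hPne : P.Nonempty := ⟨0, by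
      rw [hP, Finset.mem_filter]
      exact ⟨by simp, 0, hS0, by simp⟩⟩
    obtain ⟨k, hk, hkmax⟩ := P.exists_max_image id hPne
    rw [hP, Finset.mem_filter] at hk
    obtain ⟨_, m, hm, hmk⟩ := hk
    refine ⟨m, hm, fun m' hm' => ?_⟩
    rw [hmk]
    apply hkmax
    rw [hP, Finset.mem_filter]
    exact ⟨by rw [Finset.mem_range]; exact Nat.lt_succ_of_le (hB m' hm'), m', hm', rfl⟩
  -- the smallest coordinate
  have : Nonempty (Fin r) := ⟨y0⟩
  obtain ⟨ym, hym⟩ := Finite.exists_min (fun y => xm m (Sum.inr y))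
  refine ⟨m, xm m (Sum.inr ym), ?_⟩
  have hcoord : ∀ y, (xm m - xm m (Sum.inr ym) • diag n r) (Sum.inr y) =
      xm m (Sum.inr y) - xm m (Sum.inr ym) := by
    intro y; simp [Pool.Agent.helper22.ARR.diag]
  have htrop : Trop c (xm m - xm m (Sum.inr ym) • diag n r) := by
    refine ⟨fun y => ?_, ?_⟩
    · rw [hcoord]; linarith [hym y]
    · by_contra hcon
      push Not at hcon
      obtain ⟨Q, hQ1, hQ2⟩ := Finset.exists_subset_card_eq (Nat.succ_le_of_lt hcon)
      have hQx : ∀ y ∈ Q, xm m (Sum.inr ym) + 1 ≤ xm m (Sum.inr y) := by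
        intro y hy
        have h1 := (Finset.mem_filter.1 (hQ1 hy)).2
        rw [hcoord] at h1
        have h2 := hym y
        omega
      -- the greedy step contradicts maximality
      have hstep := greedy ht hΓ (xm m) (hφ ym) hQ2 hQx
      have hstep2 := tp_greedy ht (xm m) (hφ ym) hQ2 hQx
      set m' : Fin r → ℕ := fun y => m y + if y = ym then 1 else 0 with hm'
      have e1 : xm m' = xm m + t.v (φ ym) := by
        simp only [hxm, addM, hm']
        rw [add_assoc]
        congr 1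
        push_cast
        simp only [add_smul, Finset.sum_add_distrib]
        congr 1
        rw [Finset.sum_eq_single ym]
        · simp
        · intro y _ hy; simp [hy]
        · intro h; exact absurd (Finset.mem_univ _) h
      have h5 : ∑ y, m' y = ∑ y, m y + 1 := by
        simp only [hm', Finset.sum_add_distrib]
        simp
      have hm'S : SS m' := by
        refine ⟨?_, ?_, ?_⟩
        · intro y y'
          have h0 := hm.1 y y'
          rw [hxmy, hxmy] at h0 ⊢
          have hy1 := hym y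
          have hy2 := hym y'
          rw [hxmy, hxmy] at hy1 hy2
          simp only [hm']
          by_cases h1 : y = ym <;> by_cases h2 : y' = ym
          · rw [h1, h2]
            have := hD2 ym
            have := hμp ym
            linarith
          · rw [if_pos h1, if_neg h2]
            rw [h1] at h0 hy1 ⊢
            have := hD2 ym
            push_cast
            linarith
          · rw [if_neg h1, if_pos h2]
            rw [h2] at h0 hy2 ⊢
            have := hμp ym
            push_cast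
            linarith
          · rw [if_neg h1, if_neg h2]
            push_cast
            linarith
        · rw [e1]
          exact hstep.trans hm.2.1
        · refine le_trans ?_ hm.2.2
          simp only [hLR]
          rw [e1]
          have h6 : ∑ y, (m' y : ℝ) = ∑ y, (m y : ℝ) + 1 := by exact_mod_cast h5
          have h7 : ∑ y, (((xm m + t.v (φ ym)) (Sum.inr y) : ℤ) : ℝ) =
              ∑ y, (xm m (Sum.inr y) : ℝ) + (μ ym : ℝ) := by
            simp only [Pi.add_apply]
            push_cast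
            rw [Finset.sum_add_distrib]
            congr 1
            rw [Finset.sum_eq_single ym]
            · intro y _ hy
              rw [ht.col_eq (hφ ym) hy]; simp
            · intro h; exact absurd (Finset.mem_univ _) h
          rw [h6, h7]
          have h8 : (μ ym : ℝ) = (t.v (φ ym) (Sum.inr ym) : ℝ) := rfl
          linarith
      have := hmax m' hm'S
      omega
  refine ⟨htrop, ?_, ?_⟩
  · rw [← big_trop ht.size htrop]
    have e : toReal (xm m - xm m (Sum.inr ym) • diag n r) =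
        toReal (xm m) + (-(xm m (Sum.inr ym) : ℝ)) • toReal (diag n r) := by
      rw [toReal_sub, toReal_zsmul, neg_smul, sub_eq_add_neg]
    rw [e, ht.bigDiag hdeg]
    exact hm.2.1
  · have h1 := hm.2.2
    simp only [hLR] at h1
    rw [h0] at h1
    have h2 := tp_trop ht.size htrop
    have e : toReal (xm m - xm m (Sum.inr ym) • diag n r) =
        toReal (xm m) + (-(xm m (Sum.inr ym) : ℝ)) • toReal (diag n r) := by
      rw [toReal_sub, toReal_zsmul, neg_smul, sub_eq_add_neg]
    rw [e, tp_diag ht.size, sum_diag] at h2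
    have h3 : ∑ y, toReal (xm m) (Sum.inr y) = ∑ y, (xm m (Sum.inr y) : ℝ) := rfl
    rw [h3] at h2
    have h4 : ∑ y, (((0 : Fin r → ℕ) y : ℕ) : ℝ) = 0 := by simp
    rw [h4] at h1
    linarith

end Pool.Agent.helper20.BDA
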