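import Pool.Agent.helper20.BDA.Toric
import Pool.Agent.helper20.BDA.Pia

/-!
# Bounded reduction on arrangement varieties: general part and second case
-/

noncomputable section

namespace Pool.Agent.helper20.BDA

open Finset Pool.Agent.helper22.ARR

variable {ι' : Type} [Fintype ι']
variable {n r q c : ℕ} {Γ : Set ℝ} {t : GenPair (Fin n ⊕ Fin r)}

/-- the conclusion of the toric statement -/
def TBD (ι : Type) [Fintype ι] (Γ : Set ℝ) (C R : ℝ) : Prop :=
  ∀ t : GenPair ι, LC2 Γ C t → ∀ z : ι → ℤ, toReal z ∈ rint t.v →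
    ∃ (z' : ι → ℤ) (μ : Fin t.p → ℝ), toReal z' ∈ rint t.v ∧ (∀ i, 0 ≤ μ i) ∧ ∑ i, μ i ≤ R ∧
      (∀ j, (z' j : ℝ) = ∑ i, μ i * (t.v i j : ℝ)) ∧
      logDisc t (toReal z') ≤ logDisc t (toReal z)

/-- the point `z` has size at most `R` -/
def Bdd (R : ℝ) (t : GenPair (Fin n ⊕ Fin r)) (z : Fin n ⊕ Fin r → ℤ) : Prop :=
  ∃ (μ : Fin t.p → ℝ) (s : ℝ), (∀ i, 0 ≤ μ i) ∧
    (∀ j, (z j : ℝ) = ∑ i, μ i * (t.v i j : ℝ) + s * (diag n r j : ℝ)) ∧
    ∑ i, μ i + s * ∑ y, t.psi (Sum.inr y) ≤ R

theorem red_bd {κ : Type} [Fintype κ] {Γ' : Set ℝ} {C R : ℝ} (hR : TBD ι' Γ' C R)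
    (t₀ : GenPair (Fin n ⊕ Fin r)) (A : Fin n ⊕ Fin r → ι' → ℤ) (g : κ → ι' → ℤ)
    (H1 : ∀ i, C - logDisc t₀ (lin A (toReal (g i))) ∈ AddSubmonoid.closure Γ')
    (H2 : ∀ a ∈ t₀.parts, a.1 ∈ Γ' ∧ a.2.Nonempty)
    (H3 : ∀ i, lin A (toReal (g i)) ∈ coneOf (ext t))
    (H4 : ∀ j : Fin t.p, ∃ i : κ, ∃ δ > 0,
      lin A (toReal (g i)) - (δ : ℝ) • toReal (t.v j) ∈ coneOf (ext t))
    (H5 : ∀ z : ι' → ℤ, toReal z ∈ coneOf g → 0 ≤ logDisc t₀ (lin A (toReal z)))
    (z₀ : ι' → ℤ) (H6 : toReal z₀ ∈ rint g) :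
    ∃ (z' : ι' → ℤ) (μ : κ → ℝ), toReal z' ∈ coneOf g ∧ lin A (toReal z') ∈ rint (ext t) ∧
      (∀ k, 0 ≤ μ k) ∧ ∑ k, μ k ≤ R ∧ toReal z' = ∑ k, μ k • toReal (g k) ∧
      logDisc t₀ (lin A (toReal z')) ≤ logDisc t₀ (lin A (toReal z₀)) := by
  classical
  set e := (Fintype.equivFin κ).symm with he
  set t' := pull A t₀ (Fintype.card κ) (fun i => g (e i)) with ht'
  have hcone : coneOf t'.v = coneOf g := coneOf_equiv e g
  have hrint : rint t'.v = rint g := rint_equiv e g
  have hlog : ∀ x, logDisc t' x = logDisc t₀ (lin A x) := fun x => logDisc_pull _ _ _ _ _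
  have hmap : ∀ x ∈ coneOf g, lin A x ∈ coneOf (ext t) := by
    rintro x ⟨μ, hμ, h⟩
    have : x = ∑ i, μ i • toReal (g i) := by
      funext j
      rw [h j]
      simp only [Finset.sum_apply, Pi.smul_apply, smul_eq_mul, toReal]
    rw [this, lin_sum]
    refine coneOf_sum _ _ _ fun i _ => ?_
    rw [lin_smul]
    exact coneOf_smul _ (H3 i) (hμ i)
  have hmapr : ∀ x ∈ rint g, lin A x ∈ rint (ext t) := by
    intro x hx
    refine rint_ext (hmap x hx.1) fun j => ?_
    obtain ⟨i, δ, hδ, hi⟩ := H4 j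
    obtain ⟨ε, hε, hx2⟩ := hx.2 i
    refine ⟨ε * δ, mul_pos hε hδ, ?_⟩
    have h1 := hmap _ hx2
    rw [lin_sub, lin_smul] at h1
    have : lin A x - (ε * δ) • toReal (t.v j) = (lin A x - ε • lin A (toReal (g i))) +
        ε • (lin A (toReal (g i)) - δ • toReal (t.v j)) := by
      rw [smul_sub, smul_smul]; abel
    rw [this]
    exact coneOf_add _ h1 (coneOf_smul _ hi hε.le)
  have hLC : LC2 Γ' C t' := by
    refine ⟨?_, ?_, ?_⟩
    · intro i
      rw [hlog]
      exact H1 (e i)
    · intro a ha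
      obtain ⟨b, hb, rfl⟩ := List.mem_map.1 ha
      exact ⟨(H2 b hb).1, (H2 b hb).2.image _⟩
    · intro z hz
      rw [hcone] at hz
      rw [hlog]
      exact H5 z hz
  obtain ⟨z', μ, h1, h2, h3, h4, h5⟩ := hR t' hLC z₀ (by rw [hrint]; exact H6)
  rw [hrint] at h1
  rw [hlog, hlog] at h5
  refine ⟨z', fun k => μ (e.symm k), h1.1, hmapr _ h1, fun k => h2 _, ?_, ?_, h5⟩
  · refine le_trans (le_of_eq ?_) h3
    exact Equiv.sum_comp e.symm μ
  · funext j
    simp only [Finset.sum_apply, Pi.smul_apply, smul_eq_mul, toReal]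
    rw [h4 j]
    change ∑ i, μ i * (g (e i) j : ℝ) = ∑ k, μ (e.symm k) * (g k j : ℝ)
    rw [← Equiv.sum_comp e (fun k => μ (e.symm k) * (g k j : ℝ))]
    exact Finset.sum_congr rfl fun i _ => by rw [Equiv.symm_apply_apply]

/-- combining representations -/
theorem rep_sum {κ : Type} [Fintype κ] (μ : κ → ℝ) (hμ : ∀ k, 0 ≤ μ k)
    (x : κ → Fin n ⊕ Fin r → ℝ) (ν : κ → Fin t.p → ℝ) (σ : κ → ℝ) (hν : ∀ k i, 0 ≤ ν k i)
    (hx : ∀ k, x k = ∑ i, ν k i • toReal (t.v i) + σ k • toReal (diag n r)) :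
    (∀ i, 0 ≤ ∑ k, μ k * ν k i) ∧
    ∑ k, μ k • x k = ∑ i, (∑ k, μ k * ν k i) • toReal (t.v i) +
      (∑ k, μ k * σ k) • toReal (diag n r) := by
  refine ⟨fun i => Finset.sum_nonneg fun k _ => mul_nonneg (hμ k) (hν k i), ?_⟩
  simp only [hx, smul_add, Finset.sum_add_distrib, Finset.smul_sum, smul_smul, Finset.sum_smul]
  congr 1
  exact Finset.sum_comm

theorem bdB (ht : IsLC c Γ t) (hΓ : ∀ x ∈ Γ, 0 ≤ x)
    (hB : ∀ φ, Sel t φ → ∑ y, (Ny t φ y : ℝ) ≤ NN t φ * ∑ y, t.psi (Sum.inr y))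
    {e : Fin q → Fin r} (he : Function.Injective e) (hq : q ≤ c) {R : ℝ}
    (hR : TBD (Fin n ⊕ Fin q) (insert 1 Γ) ((c : ℝ) + 1) R)
    {z₀ : Fin n ⊕ Fin r → ℤ} (hz : Trop c z₀) (hz2 : toReal z₀ ∈ interior (bigCone t))
    (hz3 : ∀ y, y ∉ Set.range e → z₀ (Sum.inr y) = 0)
    (hz4 : ∀ k, z₀ (Sum.inr (e k)) ≠ 0) :
    ∃ z : Fin n ⊕ Fin r → ℤ, Trop c z ∧ toReal z ∈ interior (bigCone t) ∧ Bdd R t z ∧
      (∀ j, |(z j : ℝ)| ≤ R * (∑ i, |(t.v i j : ℝ)| + ∑ φ, |(X0 t φ j : ℝ)|)) ∧
      logDisc t (toReal z) ≤ logDisc t (toReal z₀) := by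
  classical
  have hB0 : ∀ φ, Sel t φ → logDisc t (toReal (X0 t φ)) = 0 := by
    intro φ hφ
    apply le_antisymm _ (X0_nonneg ht hφ)
    have h1 := X0_le ht hΓ hφ
    have h2 := hB φ hφ
    linarith
  set z₁ : Fin n ⊕ Fin q → ℤ := fun j => z₀ (Sum.map id e j) with hz₁
  have hz0 : lin (BB n e) (toReal z₁) = toReal z₀ := by
    funext j
    rcases j with a | y
    · rw [BB_inl]; simp [toReal, hz₁]
    · by_cases hy : y ∈ Set.range e
      · obtain ⟨k, rfl⟩ := hy
        rw [BB_inr he]; simp [toReal, hz₁]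
      · rw [BB_not _ hy]
        simp [toReal, hz3 y hy]
  rw [bigCone_eq] at hz2
  have hz2r := rint_of_interior _ hz2
  have hH3 : ∀ i : IxB t e, lin (BB n e) (toReal (gB t e i)) ∈ coneOf (ext t) := by
    rintro (i | φ)
    · rw [linB_inl he]; exact ext_gen _
    · rw [linB_inr ht he]; exact X0_mem ht φ.2
  have htr : ∀ z : Fin n ⊕ Fin q → ℤ, toReal z ∈ coneOf (gB t e) → Trop c (linZ (BB n e) z) := by
    intro z hzc
    have hnn : ∀ k, 0 ≤ z (Sum.inr k) := by
      intro k
      obtain ⟨μ, hμ, h⟩ := hzc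
      have h1 := h (Sum.inr k)
      have h2 : (0 : ℝ) ≤ toReal z (Sum.inr k) := by
        rw [h1]
        refine Finset.sum_nonneg fun i _ => mul_nonneg (hμ i) ?_
        exact_mod_cast gB_nonneg ht i k
      simp only [toReal] at h2
      exact_mod_cast h2
    have hin : ∀ k, linZ (BB n e) z (Sum.inr (e k)) = z (Sum.inr k) := by
      intro k
      have := BB_inr (n := n) he (toReal z) k
      rw [lin_toReal] at this
      simp only [toReal] at this
      exact_mod_cast this
    have hout : ∀ y, y ∉ Set.range e → linZ (BB n e) z (Sum.inr y) = 0 := by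
      intro y hy
      have := BB_not (n := n) (toReal z) hy
      rw [lin_toReal] at this
      simp only [toReal] at this
      exact_mod_cast this
    refine ⟨fun y => ?_, ?_⟩
    · by_cases hy : y ∈ Set.range e
      · obtain ⟨k, rfl⟩ := hy
        rw [hin]; exact hnn k
      · rw [hout y hy]
    · have hsub : (univ.filter fun y => linZ (BB n e) z (Sum.inr y) ≠ 0) ⊆ univ.image e := by
        intro y hy
        rw [Finset.mem_filter] at hy
        by_contra hcon
        apply hy.2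
        apply hout
        rintro ⟨k, rfl⟩
        exact hcon (Finset.mem_image_of_mem _ (Finset.mem_univ k))
      refine (Finset.card_le_card hsub).trans (Finset.card_image_le.trans ?_)
      simpa using hq
  have hmapc : ∀ z : Fin n ⊕ Fin q → ℤ, toReal z ∈ coneOf (gB t e) →
      lin (BB n e) (toReal z) ∈ coneOf (ext t) := by
    rintro z ⟨μ, hμ, h⟩
    have : toReal z = ∑ i, μ i • toReal (gB t e i) := by
      funext j
      rw [h j]
      simp only [Finset.sum_apply, Pi.smul_apply, smul_eq_mul, toReal]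
    rw [this, lin_sum]
    refine coneOf_sum _ _ _ fun i _ => ?_
    rw [lin_smul]
    exact coneOf_smul _ (hH3 i) (hμ i)
  obtain ⟨z', μ, h1, h2, h3, h4, h5, h6⟩ := red_bd hR (t := t) t (BB n e) (gB t e) (by
      rintro (i | φ)
      · rw [linB_inl he]
        have h1 : ((c : ℝ) + 1) - logDisc t (toReal (t.v i.1)) =
            c + (1 - logDisc t (toReal (t.v i.1))) := by ring
        rw [h1]
        exact AddSubmonoid.add_mem _ (nat_mem Γ c) (clos_mono (ht.boundary _))
      · rw [linB_inr ht he, hB0 _ φ.2, sub_zero]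
        have := nat_mem Γ (c + 1)
        push_cast at this
        exact this) (by
      intro a ha
      exact ⟨Set.mem_insert_of_mem _ (ht.parts a ha).1, (ht.parts a ha).2.1⟩) hH3 (by
      intro j
      by_cases hj : ∀ y, y ∉ Set.range e → t.v j (Sum.inr y) = 0
      · refine ⟨Sum.inl ⟨j, hj⟩, 1, one_pos, ?_⟩
        rw [linB_inl he, one_smul, sub_self]
        exact coneOf_zero _
      · push Not at hj
        obtain ⟨y, _, hy⟩ := hj
        obtain ⟨φ₀, hφ₀⟩ := ht.exists_sel
        have hφ : Sel t (Function.update φ₀ y j) := by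
          intro y'
          by_cases h : y' = y
          · subst h; rw [Function.update_self]; exact hy
          · rw [Function.update_of_ne h]; exact hφ₀ y'
        refine ⟨Sum.inr ⟨_, hφ⟩, (Ny t (Function.update φ₀ y j) y : ℝ),
          by exact_mod_cast Ny_pos ht hφ y, ?_⟩
        rw [linB_inr ht he]
        simp only
        rw [toReal_X0, XX, toReal_sum]
        have h1 := Finset.add_sum_erase univ
          (fun y' => toReal (Ny t (Function.update φ₀ y j) y' •
            t.v (Function.update φ₀ y j y'))) (Finset.mem_univ y)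
        rw [← h1]
        simp only [toReal_zsmul, Function.update_self]
        have h2 : ∀ u v w : Fin n ⊕ Fin r → ℝ, u + v + w - u = v + w := by intros; abel
        rw [h2]
        refine coneOf_add _ (coneOf_sum _ _ _ fun y' _ => ?_) (ext_diag _)
        exact coneOf_smul _ (ext_gen _) (by exact_mod_cast (Ny_pos ht hφ y').le)) (by
      intro z hzc
      rw [lin_toReal]
      apply ht.lc _ (htr z hzc)
      rw [bigCone_eq, ← lin_toReal]
      exact hmapc z hzc) z₁ (by
      have hpos : ∀ k, (1 : ℝ) ≤ toReal z₁ (Sum.inr k) := by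
        intro k
        have h1 : 0 < z₀ (Sum.inr (e k)) := lt_of_le_of_ne (hz.1 _) (Ne.symm (hz4 k))
        simp only [toReal, hz₁, Sum.map_inr]
        exact_mod_cast h1
      refine ⟨?_, fun i => ?_⟩
      · apply coneB ht he hq (fun k => by linarith [hpos k])
        rw [hz0]; exact hz2r.1
      · obtain ⟨ε, hε, h⟩ := rint_sub _ hz2r (hH3 i)
        obtain ⟨δ, hδ, hδ2⟩ : ∃ δ : ℝ, 0 < δ ∧ ∀ k, δ * toReal (gB t e i) (Sum.inr k) ≤ 1 := by
          set M : ℝ := 1 + ∑ k, toReal (gB t e i) (Sum.inr k) with hM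
          have hnn : ∀ k, 0 ≤ toReal (gB t e i) (Sum.inr k) := by
            intro k
            simp only [toReal]
            exact_mod_cast gB_nonneg ht i k
          have hMp : 0 < M := by
            have : 0 ≤ ∑ k, toReal (gB t e i) (Sum.inr k) := Finset.sum_nonneg fun k _ => hnn k
            linarith
          refine ⟨M⁻¹, inv_pos.2 hMp, fun k => ?_⟩
          have h1 : toReal (gB t e i) (Sum.inr k) ≤ ∑ k, toReal (gB t e i) (Sum.inr k) :=
            Finset.single_le_sum (f := fun k => toReal (gB t e i) (Sum.inr k)) (fun k _ => hnn k)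
              (Finset.mem_univ k)
          rw [inv_mul_le_iff₀ hMp]
          linarith
        refine ⟨min ε δ, lt_min hε hδ, ?_⟩
        apply coneB ht he hq
        · intro k
          simp only [Pi.sub_apply, Pi.smul_apply, smul_eq_mul]
          have hnn : 0 ≤ toReal (gB t e i) (Sum.inr k) := by
            simp only [toReal]
            exact_mod_cast gB_nonneg ht i k
          have h1 : min ε δ * toReal (gB t e i) (Sum.inr k) ≤
              δ * toReal (gB t e i) (Sum.inr k) :=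
            mul_le_mul_of_nonneg_right (min_le_right _ _) hnn
          linarith [hpos k, hδ2 k]
        · rw [lin_sub, lin_smul, hz0]
          have h1 : toReal z₀ - min ε δ • lin (BB n e) (toReal (gB t e i)) =
              (toReal z₀ - ε • lin (BB n e) (toReal (gB t e i))) +
              (ε - min ε δ) • lin (BB n e) (toReal (gB t e i)) := by
            rw [sub_smul]; abel
          rw [h1]
          exact coneOf_add _ h (coneOf_smul _ (hH3 i) (by linarith [min_le_left ε δ])))
  rw [hz0] at h6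
  have hZ : toReal (linZ (BB n e) z') = ∑ k, μ k • lin (BB n e) (toReal (gB t e k)) := by
    rw [← lin_toReal, h5, lin_sum]
    exact Finset.sum_congr rfl fun k _ => lin_smul _ _ _
  refine ⟨linZ (BB n e) z', htr z' h1, ?_, ?_, ?_, ?_⟩
  · have hfull := ht.full
    rw [bigCone_eq] at hfull ⊢
    apply interior_of_rint _ hfull
    rw [← lin_toReal]
    exact h2
  · -- the size
    have hrep : ∀ k : IxB t e, ∃ (ν : Fin t.p → ℝ) (σ : ℝ), (∀ i, 0 ≤ ν i) ∧
        lin (BB n e) (toReal (gB t e k)) = ∑ i, ν i • toReal (t.v i) + σ • toReal (diag n r) ∧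
        ∑ i, ν i + σ * ∑ y, t.psi (Sum.inr y) ≤ 1 := by
      rintro (i | φ)
      · refine ⟨fun i' => if i' = i.1 then 1 else 0, 0, fun i' => by
          dsimp only; split_ifs <;> norm_num, ?_, ?_⟩
        · rw [linB_inl he, zero_smul, add_zero]
          simp only [ite_smul, one_smul, zero_smul]
          simp
        · simp
      · refine ⟨fun i' => ∑ y, if φ.1 y = i' then (Ny t φ.1 y : ℝ) else 0, -(NN t φ.1 : ℝ),
          fun i' => Finset.sum_nonneg fun y _ => ?_, ?_, ?_⟩
        · split_ifs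
          · exact_mod_cast (Ny_pos ht φ.2 y).le
          · exact le_rfl
        · rw [linB_inr ht he, toReal_X0, XX, toReal_sum]
          congr 1
          simp only [Finset.sum_smul, ite_smul, zero_smul]
          rw [Finset.sum_comm]
          refine Finset.sum_congr rfl fun y _ => ?_
          rw [Finset.sum_ite_eq univ (φ.1 y), if_pos (Finset.mem_univ _), toReal_zsmul]
        · have h7 : ∑ i', ∑ y, (if φ.1 y = i' then (Ny t φ.1 y : ℝ) else 0) =
              ∑ y, (Ny t φ.1 y : ℝ) := by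
            rw [Finset.sum_comm]
            refine Finset.sum_congr rfl fun y _ => ?_
            rw [Finset.sum_ite_eq univ (φ.1 y), if_pos (Finset.mem_univ _)]
          rw [h7]
          have := hB φ.1 φ.2
          linarith
    choose ν σ hν hx hs using hrep
    obtain ⟨h7, h8⟩ := rep_sum (t := t) μ h3 _ ν σ hν hx
    refine ⟨fun i => ∑ k, μ k * ν k i, ∑ k, μ k * σ k, h7, ?_, ?_⟩
    · intro j
      have h9 : toReal (linZ (BB n e) z') j = _ := congrFun (hZ.trans h8) j
      simp only [Pi.add_apply, Finset.sum_apply, Pi.smul_apply, smul_eq_mul, toReal] at h9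
      exact h9
    · have h9 : ∑ i, ∑ k, μ k * ν k i + (∑ k, μ k * σ k) * ∑ y, t.psi (Sum.inr y) =
          ∑ k, μ k * (∑ i, ν k i + σ k * ∑ y, t.psi (Sum.inr y)) := by
        rw [Finset.sum_comm, Finset.sum_mul, ← Finset.sum_add_distrib]
        refine Finset.sum_congr rfl fun k _ => ?_
        rw [← Finset.mul_sum]
        ring
      rw [h9]
      calc ∑ k, μ k * (∑ i, ν k i + σ k * ∑ y, t.psi (Sum.inr y)) ≤ ∑ k, μ k * 1 :=
            Finset.sum_le_sum fun k _ => mul_le_mul_of_nonneg_left (hs k) (h3 k)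
        _ ≤ R := by simpa using h4
  · -- the box
    intro j
    have h7 : ((linZ (BB n e) z' j : ℤ) : ℝ) = ∑ k, μ k * lin (BB n e) (toReal (gB t e k)) j := by
      have := congrFun hZ j
      simp only [Finset.sum_apply, Pi.smul_apply, smul_eq_mul, toReal] at this ⊢
      exact this
    set B : ℝ := ∑ i, |(t.v i j : ℝ)| + ∑ φ, |(X0 t φ j : ℝ)| with hBdef
    have hb1 : 0 ≤ ∑ i, |(t.v i j : ℝ)| := Finset.sum_nonneg fun _ _ => abs_nonneg _
    have hb2 : 0 ≤ ∑ φ, |(X0 t φ j : ℝ)| := Finset.sum_nonneg fun _ _ => abs_nonneg _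
    have hgk : ∀ k : IxB t e, |lin (BB n e) (toReal (gB t e k)) j| ≤ B := by
      rintro (i | φ)
      · rw [linB_inl he]
        have := Finset.single_le_sum (f := fun i => |(t.v i j : ℝ)|)
          (fun _ _ => abs_nonneg _) (Finset.mem_univ i.1)
        simp only [toReal]
        linarith
      · rw [linB_inr ht he]
        have := Finset.single_le_sum (f := fun φ => |(X0 t φ j : ℝ)|)
          (fun _ _ => abs_nonneg _) (Finset.mem_univ φ.1)
        simp only [toReal]
        linarith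
    rw [h7]
    calc |∑ k, μ k * lin (BB n e) (toReal (gB t e k)) j|
        ≤ ∑ k, |μ k * lin (BB n e) (toReal (gB t e k)) j| := Finset.abs_sum_le_sum_abs _ _
      _ ≤ ∑ k, μ k * B := Finset.sum_le_sum fun k _ => by
          rw [abs_mul, abs_of_nonneg (h3 k)]
          exact mul_le_mul_of_nonneg_left (hgk k) (h3 k)
      _ = (∑ k, μ k) * B := by rw [Finset.sum_mul]
      _ ≤ R * B := mul_le_mul_of_nonneg_right h4 (by linarith)
  · rw [← lin_toReal]
    exact h6

end Pool.Agent.helper20.BDA
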