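import Pool.Agent.helper20.BDA.Red

/-!
# Bounded reduction on arrangement varieties: first case
-/

noncomputable section

namespace Pool.Agent.helper20.BDA

open Finset Pool.Agent.helper22.ARR

variable {n r q c : ℕ} {Γ : Set ℝ} {t : GenPair (Fin n ⊕ Fin r)}
variable {π : Fin r → Fin q} {sec : Fin q → Fin r}

theorem tp_sum_le (hc : c < r) {κ : Type} [Fintype κ] (μ : κ → ℝ) (hμ : ∀ k, 0 ≤ μ k)
    (x : κ → Fin n ⊕ Fin r → ℝ) :
    tp c (∑ k, μ k • x k) ≤ ∑ k, μ k * tp c (x k) := by
  have h1 := low_sum (top_nonempty (n := n) hc) univ (fun k => μ k • x k)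
  simp only [tp]
  have h2 : ∑ k, low (top n r c) (μ k • x k) = ∑ k, μ k * low (top n r c) (x k) :=
    Finset.sum_congr rfl fun k _ => low_smul _ (hμ k) _
  rw [h2] at h1
  simp only [mul_neg, Finset.sum_neg_distrib]
  linarith

/-- representation and size of the generators -/
theorem rep_gA (ht : IsLC c Γ t) (hsec : ∀ k, π (sec k) = k) (hm : Mult t π) (k : IxA t q) :
    ∃ (ν : Fin t.p → ℝ) (σ : ℝ), (∀ i, 0 ≤ ν i) ∧
      lin (AA n π) (toReal (gA t π sec k)) =
        ∑ i, ν i • toReal (t.v i) + σ • toReal (diag n r) ∧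
      ∑ i, ν i + σ * (r - (c + 1)) + tp c (lin (AA n π) (toReal (gA t π sec k))) -
        ∑ y, lin (AA n π) (toReal (gA t π sec k)) (Sum.inr y) ≤ c + 1 := by
  classical
  rcases k with i | ⟨k, φ⟩ | b
  · refine ⟨fun i' => if i' = i.1 then 1 else 0, 0, fun i' => by
      dsimp only; split_ifs <;> norm_num, ?_, ?_⟩
    · rw [lin_hor, zero_smul, add_zero]
      simp only [ite_smul, one_smul, zero_smul]
      simp
    · rw [lin_hor, tp_trop ht.size (hor_trop i.2)]
      simp
  · have hS : lin (AA n π) (toReal (gA t π sec (Sum.inr (Sum.inl (k, φ))))) =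
        ∑ y ∈ univ.filter (fun y => π y = k), toReal (t.v (φ.1 y)) := lin_sel ht hsec hm k φ
    set S := univ.filter (fun y => π y = k) with hSdef
    refine ⟨fun i' => ∑ y ∈ S, if φ.1 y = i' then 1 else 0, 0,
      fun i' => Finset.sum_nonneg fun y _ => by split_ifs <;> norm_num, ?_, ?_⟩
    · rw [hS, zero_smul, add_zero]
      simp only [Finset.sum_smul, ite_smul, one_smul, zero_smul]
      rw [Finset.sum_comm]
      refine Finset.sum_congr rfl fun y _ => ?_
      rw [Finset.sum_ite_eq univ (φ.1 y), if_pos (Finset.mem_univ _)]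
    · rw [hS]
      set μ : Fin r → ℤ := fun y => t.v (φ.1 y) (Sum.inr y) with hμ
      have hμ1 : ∀ y, 1 ≤ μ y := fun y => ht.col_pos (φ.2 y)
      have h1 : ∑ i', ∑ y ∈ S, (if φ.1 y = i' then (1 : ℝ) else 0) = S.card := by
        rw [Finset.sum_comm]
        have : ∀ y ∈ S, ∑ i', (if φ.1 y = i' then (1 : ℝ) else 0) = 1 := by
          intro y _
          rw [Finset.sum_ite_eq univ (φ.1 y), if_pos (Finset.mem_univ _)]
        rw [Finset.sum_congr rfl this]
        simp
      rw [h1]
      have hXinr : ∀ y', (∑ y ∈ S, toReal (t.v (φ.1 y))) (Sum.inr y') =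
          if y' ∈ S then (μ y' : ℝ) else 0 := by
        intro y'
        simp only [Finset.sum_apply, toReal]
        by_cases h : y' ∈ S
        · rw [if_pos h, Finset.sum_eq_single y']
          · intro y _ hy
            rw [ht.col_eq (φ.2 y) (Ne.symm hy)]; simp
          · intro h'; exact absurd h h'
        · rw [if_neg h, Finset.sum_eq_zero]
          intro y hy
          have hne : y' ≠ y := by
            rintro rfl
            exact h hy
          rw [ht.col_eq (φ.2 y) hne]; simp
      obtain ⟨Q, hQ, hQtp⟩ := exists_tp ht.size (∑ y ∈ S, toReal (t.v (φ.1 y)))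
      have h2 : ∑ y ∈ Q, (∑ y ∈ S, toReal (t.v (φ.1 y))) (Sum.inr y) =
          ∑ y ∈ S ∩ Q, (μ y : ℝ) := by
        simp only [hXinr]
        rw [Finset.sum_ite, Finset.sum_const_zero, add_zero]
        refine Finset.sum_congr ?_ fun _ _ => rfl
        ext y
        simp only [Finset.mem_filter, Finset.mem_inter]
        tauto
      have h3 : ∑ y, (∑ y ∈ S, toReal (t.v (φ.1 y))) (Sum.inr y) = ∑ y ∈ S, (μ y : ℝ) := by
        simp only [hXinr]
        rw [Finset.sum_ite, Finset.sum_const_zero, add_zero]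
        refine Finset.sum_congr ?_ fun _ _ => rfl
        ext y
        simp
      rw [hQtp, h2, h3, zero_mul, add_zero]
      have h4 : ∑ y ∈ S, (μ y : ℝ) = ∑ y ∈ S \ Q, (μ y : ℝ) + ∑ y ∈ S ∩ Q, (μ y : ℝ) := by
        rw [← Finset.sum_union (Finset.disjoint_sdiff_inter S Q), Finset.sdiff_union_inter]
      have h5 : ((S \ Q).card : ℝ) ≤ ∑ y ∈ S \ Q, (μ y : ℝ) := by
        have := Finset.card_nsmul_le_sum (S \ Q) (fun y => (μ y : ℝ)) 1
          (fun y _ => by exact_mod_cast hμ1 y)
        simpa using this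
      have h6 : (S.card : ℝ) = (S \ Q).card + (S ∩ Q).card := by
        have := Finset.card_sdiff_add_card_inter S Q
        exact_mod_cast this.symm
      have h7 : ((S ∩ Q).card : ℝ) ≤ c + 1 := by
        have := Finset.card_le_card (Finset.inter_subset_right (s₁ := S) (s₂ := Q))
        rw [hQ] at this
        exact_mod_cast this
      linarith
  · refine ⟨fun _ => 0, if b then 1 else -1, fun _ => le_rfl, ?_, ?_⟩
    · rw [lin_bool]
      simp
    · rw [lin_bool]
      set s : ℝ := if b then 1 else -1 with hs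
      have h0 : tp c (0 : Fin n ⊕ Fin r → ℝ) = 0 := by
        have h := low_smul (top n r c) le_rfl (0 : Fin n ⊕ Fin r → ℝ)
        rw [zero_smul, zero_mul] at h
        simp [tp, h]
      have h1 := tp_diag (n := n) ht.size (0 : Fin n ⊕ Fin r → ℝ) s
      have h2 := sum_diag (0 : Fin n ⊕ Fin r → ℝ) s
      rw [zero_add] at h1 h2
      rw [h1, h2, h0]
      simp only [Finset.sum_const_zero, Pi.zero_apply]
      have : (0 : ℝ) ≤ c + 1 := by positivity
      nlinarith

theorem bdA (ht : IsLC c Γ t) (hΓ : ∀ x ∈ Γ, 0 ≤ x)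
    (hdeg : ∑ y, (1 - t.psi (Sum.inr y)) = c + 1) {φ₀ : Fin r → Fin t.p} (hφ₀ : Sel t φ₀)
    (hχ : ∑ y, (1 - ((t.v (φ₀ y) (Sum.inr y) : ℝ))⁻¹) < c + 1)
    (hsec : ∀ k, π (sec k) = k) (hm : Mult t π) {R : ℝ}
    (hR : TBD (Fin n ⊕ Fin q) (insert 1 Γ) ((c : ℝ) + 1) R) {z₀ : Fin n ⊕ Fin r → ℤ}
    (hz : Trop c z₀) (hz2 : toReal z₀ ∈ interior (bigCone t))
    (hz3 : ∀ y y', π y = π y' → y ≠ y' → z₀ (Sum.inr y) = 0) :
    ∃ Z : Fin n ⊕ Fin r → ℤ,
      (∀ j, |(Z j : ℝ)| ≤ R * (1 + r * ∑ i, |(t.v i j : ℝ)| + ∑ i, |(t.v i j : ℝ)|)) ∧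
      logDisc (big c t) (toReal Z) ≤ logDisc t (toReal z₀) ∧
      ∃ z : Fin n ⊕ Fin r → ℤ, Trop c z ∧ toReal z ∈ interior (bigCone t) ∧
        Bdd ((c + 1) * R) t z ∧ logDisc t (toReal z) ≤ logDisc (big c t) (toReal Z) := by
  classical
  have hz0 : lin (AA n π) (toReal (Sum.elim (fun a => z₀ (Sum.inl a))
      (fun k => z₀ (Sum.inr (sec k))))) = toReal z₀ := by
    funext j
    rcases j with a | y
    · rw [AA_inl]; simp [toReal]
    · rw [AA_inr]
      simp only [toReal, Sum.elim_inr]
      by_cases h : sec (π y) = y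
      · rw [h]
      · have h1 := hz3 (sec (π y)) y (hsec _) h
        have h2 := hz3 y (sec (π y)) (hsec _).symm (Ne.symm h)
        rw [h1, h2]
  rw [bigCone_eq] at hz2
  have hz2r := rint_of_interior _ hz2
  have hH3 : ∀ i, lin (AA n π) (toReal (gA t π sec i)) ∈ coneOf (ext t) := by
    rintro (i | ⟨k, φ⟩ | b)
    · rw [lin_hor]; exact ext_gen _
    · rw [lin_sel ht hsec hm]
      exact coneOf_sum _ _ _ fun y _ => ext_gen _
    · rw [lin_bool]; exact ext_diag _
  have hmapc : ∀ z : Fin n ⊕ Fin q → ℤ, toReal z ∈ coneOf (gA t π sec) →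
      lin (AA n π) (toReal z) ∈ coneOf (ext t) := by
    rintro z ⟨μ, hμ, h⟩
    have : toReal z = ∑ i, μ i • toReal (gA t π sec i) := by
      funext j
      rw [h j]
      simp only [Finset.sum_apply, Pi.smul_apply, smul_eq_mul, toReal]
    rw [this, lin_sum]
    refine coneOf_sum _ _ _ fun i _ => ?_
    rw [lin_smul]
    exact coneOf_smul _ (hH3 i) (hμ i)
  have hadd : ∀ (Z : Fin n ⊕ Fin r → ℤ) (m : Fin r → ℕ) (s : ℤ),
      toReal (addM t φ₀ Z (fun y => (m y : ℤ)) - s • diag n r) = toReal Z +
        (∑ y, (m y : ℝ) • toReal (t.v (φ₀ y)) + (-(s : ℝ)) • toReal (diag n r)) := by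
    intro Z m s
    rw [toReal_sub, toReal_zsmul, addM, toReal_add, toReal_sum]
    simp only [toReal_zsmul, Int.cast_natCast]
    rw [neg_smul]; abel
  obtain ⟨z', μ, h1, h2, h3, h4, h5, h6⟩ := red_bd hR (t := t) (big c t) (AA n π)
    (gA t π sec) (by
      rintro (i | ⟨k, φ⟩ | b)
      · rw [lin_hor, big_trop ht.size (hor_trop i.2)]
        have h1 : ((c : ℝ) + 1) - logDisc t (toReal (t.v i.1)) =
            c + (1 - logDisc t (toReal (t.v i.1))) := by ring
        rw [h1]
        exact AddSubmonoid.add_mem _ (nat_mem Γ c) (clos_mono (ht.boundary _))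
      · rw [lin_sel ht hsec hm]
        exact valA ht φ _
      · rw [lin_bool]
        have h1 := ht.bigDiag hdeg 0 (if b then (1 : ℝ) else -1)
        rw [zero_add, logDisc_zero] at h1
        rw [h1, sub_zero]
        have := nat_mem Γ (c + 1)
        push_cast at this
        exact this) (by
      intro a ha
      rcases List.mem_cons.1 ha with rfl | ha
      · exact ⟨Set.mem_insert _ _, top_nonempty ht.size⟩
      · exact ⟨Set.mem_insert_of_mem _ (ht.parts a ha).1, (ht.parts a ha).2.1⟩) hH3 (by
      intro j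
      by_cases hj : j ∈ hor t
      · refine ⟨Sum.inl ⟨j, hj⟩, 1, one_pos, ?_⟩
        rw [lin_hor, one_smul, sub_self]
        exact coneOf_zero _
      · rw [mem_hor] at hj
        push Not at hj
        obtain ⟨y, hy⟩ := hj
        have hφ : Sel t (Function.update φ₀ y j) := by
          intro y'
          by_cases h : y' = y
          · subst h; rw [Function.update_self]; exact hy
          · rw [Function.update_of_ne h]; exact hφ₀ y'
        refine ⟨Sum.inr (Sum.inl (π y, ⟨_, hφ⟩)), 1, one_pos, ?_⟩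
        rw [lin_sel ht hsec hm, one_smul]
        have h1 := Finset.add_sum_erase (univ.filter (fun y' => π y' = π y))
          (fun y' => toReal (t.v (Function.update φ₀ y j y'))) (a := y) (by simp)
        rw [← h1, Function.update_self, add_sub_cancel_left]
        exact coneOf_sum _ _ _ fun y _ => ext_gen _) (by
      intro z hzc
      rw [lin_toReal]
      obtain ⟨m, s, h1, h2, _⟩ := pia2 ht hΓ hdeg hφ₀ hχ (linZ (AA n π) z)
      refine le_trans (ht.lc _ h1 ?_) h2
      rw [bigCone_eq, hadd, ← lin_toReal]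
      exact coneOf_add _ (hmapc z hzc) (coneOf_add _ (coneOf_sum _ _ _ fun y _ =>
        coneOf_smul _ (ext_gen _) (Nat.cast_nonneg _)) (ext_diag _)))
    (Sum.elim (fun a => z₀ (Sum.inl a)) (fun k => z₀ (Sum.inr (sec k)))) (by
      refine ⟨?_, fun i => ?_⟩
      · apply coneA ht hsec hm
        rw [hz0]; exact hz2r.1
      · obtain ⟨ε, hε, h⟩ := rint_sub _ hz2r (hH3 i)
        refine ⟨ε, hε, ?_⟩
        apply coneA ht hsec hm
        rw [lin_sub, lin_smul, hz0]
        exact h)
  rw [hz0, big_trop ht.size hz] at h6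
  set Z := linZ (AA n π) z' with hZdef
  have hZ : toReal Z = ∑ k, μ k • lin (AA n π) (toReal (gA t π sec k)) := by
    rw [hZdef, ← lin_toReal, h5, lin_sum]
    exact Finset.sum_congr rfl fun k _ => lin_smul _ _ _
  rw [lin_toReal] at h2 h6
  refine ⟨Z, ?_, h6, ?_⟩
  · -- the box
    intro j
    have h7 : (Z j : ℝ) = ∑ k, μ k * lin (AA n π) (toReal (gA t π sec k)) j := by
      have := congrFun hZ j
      simp only [Finset.sum_apply, Pi.smul_apply, smul_eq_mul] at this
      exact this
    set B : ℝ := 1 + r * ∑ i, |(t.v i j : ℝ)| + ∑ i, |(t.v i j : ℝ)| with hBdef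
    have hb1 : 0 ≤ ∑ i, |(t.v i j : ℝ)| := Finset.sum_nonneg fun _ _ => abs_nonneg _
    have hr0 : (0 : ℝ) ≤ r := Nat.cast_nonneg _
    have hb2 : 0 ≤ (r : ℝ) * ∑ i, |(t.v i j : ℝ)| := mul_nonneg hr0 hb1
    have hgk : ∀ k, |lin (AA n π) (toReal (gA t π sec k)) j| ≤ B := by
      rintro (i | ⟨k, φ⟩ | b)
      · rw [lin_hor]
        have := Finset.single_le_sum (f := fun i => |(t.v i j : ℝ)|)
          (fun _ _ => abs_nonneg _) (Finset.mem_univ i.1)
        simp only [toReal]
        linarith
      · rw [lin_sel ht hsec hm, Finset.sum_apply]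
        refine (Finset.abs_sum_le_sum_abs _ _).trans ?_
        have h8 : ∀ y ∈ univ.filter (fun y => π y = k), |toReal (t.v (φ.1 y)) j| ≤
            ∑ i, |(t.v i j : ℝ)| := fun y _ =>
          Finset.single_le_sum (f := fun i => |(t.v i j : ℝ)|)
            (fun _ _ => abs_nonneg _) (Finset.mem_univ (φ.1 y))
        refine (Finset.sum_le_sum h8).trans ?_
        rw [Finset.sum_const, nsmul_eq_mul]
        have h9 : ((univ.filter (fun y => π y = k)).card : ℝ) ≤ r := by
          have := Finset.card_filter_le (univ : Finset (Fin r)) (fun y => π y = k)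
          rw [Finset.card_univ, Fintype.card_fin] at this
          exact_mod_cast this
        have h10 := mul_le_mul_of_nonneg_right h9 hb1
        linarith
      · rw [lin_bool]
        have h8 : |((if b then (1 : ℝ) else -1) • toReal (diag n r)) j| ≤ 1 := by
          rcases j with a | y
          · simp [toReal, Pool.Agent.helper22.ARR.diag]
          · cases b <;> simp [toReal, Pool.Agent.helper22.ARR.diag]
        linarith
    rw [h7]
    calc |∑ k, μ k * lin (AA n π) (toReal (gA t π sec k)) j|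
        ≤ ∑ k, |μ k * lin (AA n π) (toReal (gA t π sec k)) j| := Finset.abs_sum_le_sum_abs _ _
      _ ≤ ∑ k, μ k * B := Finset.sum_le_sum fun k _ => by
          rw [abs_mul, abs_of_nonneg (h3 k)]
          exact mul_le_mul_of_nonneg_left (hgk k) (h3 k)
      _ = (∑ k, μ k) * B := by rw [Finset.sum_mul]
      _ ≤ R * B := mul_le_mul_of_nonneg_right h4 (by linarith)
  · obtain ⟨m, s, h7, h8, h9⟩ := pia2 ht hΓ hdeg hφ₀ hχ Z
    refine ⟨_, h7, ?_, ?_, h8⟩
    · have hfull := ht.full
      rw [bigCone_eq] at hfull ⊢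
      apply interior_of_rint _ hfull
      rw [hadd]
      exact rint_add _ h2 (coneOf_add _ (coneOf_sum _ _ _ fun y _ =>
        coneOf_smul _ (ext_gen _) (Nat.cast_nonneg _)) (ext_diag _))
    · -- the size
      choose ν σ hν hx hs using fun k => rep_gA (c := c) ht hsec hm (π := π) (sec := sec) k
      obtain ⟨h10, h11⟩ := rep_sum (t := t) μ h3 _ ν σ hν hx
      refine ⟨fun i => ∑ k, μ k * ν k i + ∑ y, (if φ₀ y = i then (m y : ℝ) else 0),
        ∑ k, μ k * σ k - s, fun i => add_nonneg (h10 i) (Finset.sum_nonneg fun y _ => by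
          split_ifs
          · exact Nat.cast_nonneg _
          · exact le_rfl), ?_, ?_⟩
      · intro j
        have h12 := congrFun ((hadd Z m s).trans (by rw [hZ, h11])) j
        simp only [Pi.add_apply, Finset.sum_apply, Pi.smul_apply, smul_eq_mul, toReal] at h12
        rw [h12]
        have h13 : ∑ i, (∑ k, μ k * ν k i + ∑ y, (if φ₀ y = i then (m y : ℝ) else 0)) *
            (t.v i j : ℝ) = ∑ i, (∑ k, μ k * ν k i) * (t.v i j : ℝ) +
              ∑ y, (m y : ℝ) * (t.v (φ₀ y) j : ℝ) := by
          simp only [add_mul, Finset.sum_add_distrib]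
          congr 1
          simp only [Finset.sum_mul, ite_mul, zero_mul]
          rw [Finset.sum_comm]
          refine Finset.sum_congr rfl fun y _ => ?_
          rw [Finset.sum_ite_eq univ (φ₀ y), if_pos (Finset.mem_univ _)]
        rw [h13]
        ring
      · have hpsi : ∑ y, t.psi (Sum.inr y) = r - (c + 1) := by
          rw [Finset.sum_sub_distrib] at hdeg
          simp only [Finset.sum_const, Finset.card_univ, Fintype.card_fin, nsmul_eq_mul,
            mul_one] at hdeg
          linarith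
        rw [hpsi]
        have h12 : ∑ i, (∑ k, μ k * ν k i + ∑ y, (if φ₀ y = i then (m y : ℝ) else 0)) =
            ∑ k, μ k * ∑ i, ν k i + ∑ y, (m y : ℝ) := by
          rw [Finset.sum_add_distrib]
          congr 1
          · rw [Finset.sum_comm]
            exact Finset.sum_congr rfl fun k _ => by rw [Finset.mul_sum]
          · rw [Finset.sum_comm]
            refine Finset.sum_congr rfl fun y _ => ?_
            rw [Finset.sum_ite_eq univ (φ₀ y), if_pos (Finset.mem_univ _)]
        rw [h12]
        have h13 : tp c (toReal Z) ≤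
            ∑ k, μ k * tp c (lin (AA n π) (toReal (gA t π sec k))) := by
          rw [hZ]
          exact tp_sum_le ht.size μ h3 _
        have h14 : ∑ y, (Z (Sum.inr y) : ℝ) =
            ∑ k, μ k * ∑ y, lin (AA n π) (toReal (gA t π sec k)) (Sum.inr y) := by
          have h15 : ∀ y, (Z (Sum.inr y) : ℝ) =
              ∑ k, μ k * lin (AA n π) (toReal (gA t π sec k)) (Sum.inr y) := by
            intro y
            have := congrFun hZ (Sum.inr y)
            simp only [Finset.sum_apply, Pi.smul_apply, smul_eq_mul] at this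
            exact this
          simp only [h15, Finset.mul_sum]
          exact Finset.sum_comm
        have h15 : ∑ k, μ k * (∑ i, ν k i + σ k * (r - (c + 1)) +
            tp c (lin (AA n π) (toReal (gA t π sec k))) -
            ∑ y, lin (AA n π) (toReal (gA t π sec k)) (Sum.inr y)) ≤ ∑ k, μ k * (c + 1) :=
          Finset.sum_le_sum fun k _ => mul_le_mul_of_nonneg_left (hs k) (h3 k)
        have h16 : ∑ k, μ k * (∑ i, ν k i + σ k * (r - (c + 1)) +
            tp c (lin (AA n π) (toReal (gA t π sec k))) -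
            ∑ y, lin (AA n π) (toReal (gA t π sec k)) (Sum.inr y)) =
            ∑ k, μ k * ∑ i, ν k i + (∑ k, μ k * σ k) * (r - (c + 1)) +
            ∑ k, μ k * tp c (lin (AA n π) (toReal (gA t π sec k))) -
            ∑ k, μ k * ∑ y, lin (AA n π) (toReal (gA t π sec k)) (Sum.inr y) := by
          rw [Finset.sum_mul, ← Finset.sum_add_distrib, ← Finset.sum_add_distrib,
            ← Finset.sum_sub_distrib]
          exact Finset.sum_congr rfl fun k _ => by ring
        rw [h16, ← h14, ← Finset.sum_mul] at h15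
        have h17 : (∑ k, μ k) * ((c : ℝ) + 1) ≤ (c + 1) * R := by
          rw [mul_comm]
          exact mul_le_mul_of_nonneg_left h4 (by positivity)
        linarith

end Pool.Agent.helper20.BDA
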