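import Pool.Agent.helper20.BDA.Lim
import Pool.Agent.helper20.BDC.Main
import Pool.Agent.helper22.ARR.Toric

/-!
# Bounded reduction in a toric setting, with a constant
-/

noncomputable section

namespace Pool.Agent.helper20.BDA

open Finset Pool.Agent.helper22.ARR
open Pool.Agent.helper20.BDC (iter fib_sum)

variable {ι : Type} [Fintype ι] {d : ℕ}

theorem GG_eq (C : ℝ) (b : Fin d → ℝ) (I : List (ℝ × Set (Fin d → ℕ))) (u : Fin d → ℝ) :
    GG C b I u = GC C b I u := rfl

theorem exists_pt {t : GenPair ι} {z : ι → ℤ} (hz : toReal z ∈ coneOf t.v) :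
    ∃ d : ℕ, d < Fintype.card ι + 1 ∧ ∃ (T : Fin d → Fin t.p) (l : Fin d → ℝ), (∀ i, 0 < l i) ∧
      pt t.v T l = toReal z := by
  obtain ⟨μ, hμ, hμ2⟩ := hz
  obtain ⟨d, T, l, hl, hzl, hli⟩ := caratheodory (fun i => toReal (t.v i)) (toReal z) _ μ
    rfl hμ (by
      funext j
      simp only [Finset.sum_apply, Pi.smul_apply, smul_eq_mul]
      exact hμ2 j)
  have hpt : pt t.v T l = toReal z := by
    rw [hzl, pt_eq_sum]
  refine ⟨d, ?_, T, l, hl, hpt⟩
  have h1 := hli.fintype_card_le_finrank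
  simp only [Fintype.card_fin, Module.finrank_fintype_fun_eq_card] at h1
  omega

/-- **Bounded reduction**: every integral point of the relative interior can be replaced by one which
is a combination of the generators with bounded coefficients. -/
theorem toricBD {Γ : Set ℝ} (hΓ : ∀ x ∈ Γ, 0 ≤ x) (hWF : Γ.IsPWO) {C : ℕ} (hC : 0 < C) :
    ∃ R : ℝ, 0 ≤ R ∧ ∀ t : GenPair ι, LC2 Γ (C : ℝ) t → ∀ z : ι → ℤ, toReal z ∈ rint t.v →
      ∃ (z' : ι → ℤ) (μ : Fin t.p → ℝ), toReal z' ∈ rint t.v ∧ (∀ i, 0 ≤ μ i) ∧ ∑ i, μ i ≤ R ∧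
        (∀ j, (z' j : ℝ) = ∑ i, μ i * (t.v i j : ℝ)) ∧
        logDisc t (toReal z') ≤ logDisc t (toReal z) := by
  classical
  choose R hR using fun d => limC d C Γ hΓ hWF
  refine ⟨∑ d ∈ range (Fintype.card ι + 1), |R d|, Finset.sum_nonneg fun _ _ => abs_nonneg _,
    fun t ht z hz => ?_⟩
  obtain ⟨d, hd, T, l, hl, hpt⟩ := exists_pt hz.1
  have hCr : (0 : ℝ) < C := by exact_mod_cast hC
  have hGood := good_of hΓ hCr ht T
  obtain ⟨N, hN⟩ := exists_nat_ge (∑ i, l i - R d)
  obtain ⟨k, hk1, hk2, hk3⟩ := iter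
    (Φ := GG (C : ℝ) (fun i => C - logDisc t (toReal (t.v (T i)))) (t.parts.map (tr t T)))
    (R := R d) (by
      have h1 := hR d (fun i => C - logDisc t (toReal (t.v (T i)))) (t.parts.map (tr t T))
        (fun i => ht.boundary (T i)) (by
        intro a ha
        obtain ⟨a0, ha0, rfl⟩ := List.mem_map.1 ha
        exact ⟨(ht.parts a0 ha0).1,
          Set.Nonempty.image _ (by exact_mod_cast (ht.parts a0 ha0).2)⟩) hGood.nonneg
      exact h1)
    N l hl (by linarith)
  set l' : Fin d → ℝ := fun i => l i - k i with hl'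
  have hl'0 : ∀ i, 0 < l' i := fun i => sub_pos.2 (hk1 i)
  have hpt' : pt t.v T l' = toReal (fun j => z j - ∑ i, (k i : ℤ) * t.v (T i) j) := by
    funext j
    have h1 := congrFun hpt j
    simp only [pt, toReal] at h1 ⊢
    push_cast
    rw [← h1, ← Finset.sum_sub_distrib]
    exact Finset.sum_congr rfl fun i _ => by simp only [hl']; ring
  have hint : pt t.v T l' ∈ rint t.v :=
    pt_rint t.v T (l := l) (by rw [hpt]; exact hz) hl'0
  refine ⟨fun j => z j - ∑ i, (k i : ℤ) * t.v (T i) j,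
    fun a => ∑ i, if T i = a then l' i else 0, ?_, ?_, ?_, ?_, ?_⟩
  · rw [← hpt']; exact hint
  · intro a
    refine Finset.sum_nonneg fun i _ => ?_
    split_ifs
    · exact (hl'0 i).le
    · exact le_rfl
  · have h1 := fib_sum T l' (fun _ => 1)
    simp only [mul_one] at h1
    rw [h1]
    refine hk2.trans ((le_abs_self _).trans ?_)
    exact Finset.single_le_sum (f := fun d => |R d|) (fun _ _ => abs_nonneg _)
      (Finset.mem_range.2 hd)
  · intro j
    rw [fib_sum T l' (fun a => (t.v a j : ℝ))]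
    have h1 := congrFun hpt' j
    simp only [pt, toReal] at h1
    exact h1.symm
  · rw [← hpt', ← hpt, logDisc_pt ht T hl'0, logDisc_pt ht T hl]
    exact hk3

end Pool.Agent.helper20.BDA
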